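import Pool.Agent.R846.VD.A

/-! # Boxes for sequences with the joint normal law -/

set_option autoImplicit false

namespace Pool.Agent.R846.VE

open Filter Topology MeasureTheory Complex ProbabilityTheory
open Pool.Agent.R846.VS (ph gn gn_char ph_pos ph_le)

/-- the coefficients of `((1 + cos y) / 2) ^ r` -/
noncomputable def bb (r u : ℕ) : ℝ := ((2 * r).choose u : ℝ) / 4 ^ r

lemma bb_nonneg (r u : ℕ) : 0 ≤ bb r u := by unfold bb; positivity

lemma hexp (r : ℕ) (y : ℝ) : ((((1 + Real.cos y) / 2) ^ r : ℝ) : ℂ) =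
    ∑ u ∈ Finset.range (2 * r + 1), (bb r u : ℂ) * cexp (I * ((((u : ℝ) - r) * y : ℝ) : ℂ)) := by
  obtain ⟨z, hz⟩ : ∃ z : ℂ, z = cexp (I * (y : ℂ)) := ⟨_, rfl⟩
  obtain ⟨z', hz'⟩ : ∃ z' : ℂ, z' = cexp (-(I * (y : ℂ))) := ⟨_, rfl⟩
  have hzz : z' * z = 1 := by
    rw [hz, hz', ← Complex.exp_add, neg_add_cancel, Complex.exp_zero]
  have hcos : ((Real.cos y : ℝ) : ℂ) = (z + z') / 2 := by
    rw [Complex.ofReal_cos, Complex.cos, hz, hz']
    congr 2
    · congr 1; ring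
    · congr 1; ring
  have h1 : (((1 + Real.cos y) / 2 : ℝ) : ℂ) = z' * (z + 1) ^ 2 / 4 := by
    push_cast
    rw [← Complex.ofReal_cos, hcos]
    have e1 : z' * (z + 1) ^ 2 = (z' * z) * z + 2 * (z' * z) + z' := by ring
    rw [e1, hzz]
    ring
  rw [Complex.ofReal_pow, h1, div_pow, mul_pow, ← pow_mul, add_pow]
  rw [Finset.mul_sum, Finset.sum_div]
  refine Finset.sum_congr rfl fun u _ => ?_
  unfold bb
  have e2 : cexp (I * ((((u : ℝ) - r) * y : ℝ) : ℂ)) = z ^ u * z' ^ r := by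
    rw [hz, hz', ← Complex.exp_nat_mul, ← Complex.exp_nat_mul, ← Complex.exp_add]
    congr 1
    push_cast
    ring
  rw [e2, one_pow]
  push_cast
  ring

lemma bb_sum (r : ℕ) : ∑ u ∈ Finset.range (2 * r + 1), bb r u = 1 := by
  have h1 := hexp r 0
  rw [Real.cos_zero] at h1
  have h2 : (((1 + 1) / 2 : ℝ)) ^ r = 1 := by norm_num
  rw [h2] at h1
  simp only [mul_zero, Complex.ofReal_zero, Complex.exp_zero, mul_one] at h1
  rw [← Complex.ofReal_sum] at h1
  exact_mod_cast h1.symm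

lemma hmean (r : ℕ) : ∫ y, ((1 + Real.cos y) / 2) ^ r ∂gn =
    ∑ u ∈ Finset.range (2 * r + 1), bb r u * ph ((u : ℝ) - r) := by
  have h1 : ((∫ y, ((1 + Real.cos y) / 2) ^ r ∂gn : ℝ) : ℂ) =
      ((∑ u ∈ Finset.range (2 * r + 1), bb r u * ph ((u : ℝ) - r) : ℝ) : ℂ) := by
    have e0 : ((∫ y, ((1 + Real.cos y) / 2) ^ r ∂gn : ℝ) : ℂ) =
        ∫ y, ((((1 + Real.cos y) / 2) ^ r : ℝ) : ℂ) ∂gn := (integral_ofReal (𝕜 := ℂ)).symm
    rw [e0]
    simp only [hexp]
    have hi : ∀ ζ : ℝ, Integrable (fun y : ℝ => cexp (I * ((ζ * y : ℝ) : ℂ))) gn := by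
      intro ζ
      refine Integrable.of_bound (C := 1) (by fun_prop) (Eventually.of_forall fun y => ?_)
      rw [mul_comm, Complex.norm_exp_ofReal_mul_I]
    rw [integral_finsetSum _ fun u _ => (hi _).const_mul _, Complex.ofReal_sum]
    refine Finset.sum_congr rfl fun u _ => ?_
    rw [integral_const_mul, gn_char, Complex.ofReal_mul]
  exact_mod_cast h1

/-- averages of products -/
lemma tensor {N K r : ℕ} (β : Fin N → ℕ → ℝ) (hβ : ∀ i u, 0 ≤ β i u)
    (hβ1 : ∀ i, ∑ u ∈ Finset.range (2 * r + 1), β i u = 1) (x : Fin N → ℕ → ℝ) (c : Fin N → ℝ) {ε : ℝ}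
    (h : ∀ p : Fin N → ℕ, (∀ i, p i ∈ Finset.range (2 * r + 1)) →
      ‖(1 / K : ℂ) * ∑ k ∈ Finset.range K, ∏ i, cexp (I * ((((p i : ℝ) - r) * x i k : ℝ) : ℂ)) -
        ∏ i, (ph ((p i : ℝ) - r) : ℂ)‖ ≤ ε) :
    ‖(1 / K : ℂ) * ∑ k ∈ Finset.range K, ∏ i, ∑ u ∈ Finset.range (2 * r + 1),
      (β i u : ℂ) * cexp (I * ((((u : ℝ) - r) * (x i k - c i) : ℝ) : ℂ))‖ ≤
      ∏ i, ∑ u ∈ Finset.range (2 * r + 1), β i u * ph ((u : ℝ) - r) + ε := by
  classical
  set P := Fintype.piFinset fun _ : Fin N => Finset.range (2 * r + 1) with hP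
  set A : (Fin N → ℕ) → ℂ := fun p => ∏ i, ((β i (p i) : ℂ) *
    cexp (I * ((-(((p i : ℝ) - r) * c i) : ℝ) : ℂ))) with hA
  have hAn : ∀ p, ‖A p‖ = ∏ i, β i (p i) := by
    intro p
    rw [hA, norm_prod]
    refine Finset.prod_congr rfl fun i _ => ?_
    rw [norm_mul, Complex.norm_real, Real.norm_of_nonneg (hβ _ _), mul_comm I,
      Complex.norm_exp_ofReal_mul_I, mul_one]
  have e1 : (1 / K : ℂ) * ∑ k ∈ Finset.range K, ∏ i, ∑ u ∈ Finset.range (2 * r + 1),
      (β i u : ℂ) * cexp (I * ((((u : ℝ) - r) * (x i k - c i) : ℝ) : ℂ)) =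
      ∑ p ∈ P, A p * ((1 / K : ℂ) * ∑ k ∈ Finset.range K,
        ∏ i, cexp (I * ((((p i : ℝ) - r) * x i k : ℝ) : ℂ))) := by
    have e2 : ∀ k, ∏ i, ∑ u ∈ Finset.range (2 * r + 1),
        (β i u : ℂ) * cexp (I * ((((u : ℝ) - r) * (x i k - c i) : ℝ) : ℂ)) =
        ∑ p ∈ P, A p * ∏ i, cexp (I * ((((p i : ℝ) - r) * x i k : ℝ) : ℂ)) := by
      intro k
      rw [Finset.prod_univ_sum]
      refine Finset.sum_congr rfl fun p _ => ?_
      rw [hA, ← Finset.prod_mul_distrib]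
      refine Finset.prod_congr rfl fun i _ => ?_
      rw [mul_assoc, ← Complex.exp_add]
      congr 2
      push_cast
      ring
    simp only [e2]
    rw [Finset.sum_comm, Finset.mul_sum]
    refine Finset.sum_congr rfl fun p _ => ?_
    rw [← Finset.mul_sum]
    ring
  have hprod : ∀ p : Fin N → ℕ, ‖∏ i, (ph ((p i : ℝ) - r) : ℂ)‖ = ∏ i, ph ((p i : ℝ) - r) := by
    intro p
    rw [norm_prod]
    refine Finset.prod_congr rfl fun i _ => ?_
    rw [Complex.norm_real, Real.norm_of_nonneg (ph_pos _).le]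
  rw [e1]
  calc ‖∑ p ∈ P, A p * ((1 / K : ℂ) * ∑ k ∈ Finset.range K,
        ∏ i, cexp (I * ((((p i : ℝ) - r) * x i k : ℝ) : ℂ)))‖
      ≤ ∑ p ∈ P, (∏ i, β i (p i)) * (∏ i, ph ((p i : ℝ) - r) + ε) := by
        refine (norm_sum_le _ _).trans (Finset.sum_le_sum fun p hp => ?_)
        rw [norm_mul, hAn]
        apply mul_le_mul_of_nonneg_left _ (Finset.prod_nonneg fun i _ => hβ _ _)
        have h1 := h p (fun i => Fintype.mem_piFinset.1 hp i)
        have h2 := norm_le_norm_add_norm_sub' ((1 / K : ℂ) * ∑ k ∈ Finset.range K,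
          ∏ i, cexp (I * ((((p i : ℝ) - r) * x i k : ℝ) : ℂ))) (∏ i, (ph ((p i : ℝ) - r) : ℂ))
        rw [hprod] at h2
        linarith
    _ = ∑ p ∈ P, ∏ i, (β i (p i) * ph ((p i : ℝ) - r)) + (∑ p ∈ P, ∏ i, β i (p i)) * ε := by
        rw [Finset.sum_mul, ← Finset.sum_add_distrib]
        refine Finset.sum_congr rfl fun p _ => ?_
        rw [Finset.prod_mul_distrib]
        ring
    _ = ∏ i, ∑ u ∈ Finset.range (2 * r + 1), β i u * ph ((u : ℝ) - r) + ε := by
        have e5 := Finset.prod_univ_sum (fun _ : Fin N => Finset.range (2 * r + 1))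
          (fun i u => β i u * ph ((u : ℝ) - r))
        have e6 := Finset.prod_univ_sum (fun _ : Fin N => Finset.range (2 * r + 1))
          (fun i u => β i u)
        rw [e5, hP, ← e6]
        simp only [hβ1, Finset.prod_const_one, one_mul]

/-- **few indices lie in a small box** -/
theorem box {N K r : ℕ} {δ τ ε : ℝ} (hK : 1 ≤ K)
    (hδ : ∀ y : ℝ, |y| ≤ δ → 1 / 2 ≤ ((1 + Real.cos y) / 2) ^ r)
    (hτ : ∫ y, ((1 + Real.cos y) / 2) ^ r ∂gn ≤ τ) (x : Fin N → ℕ → ℝ)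
    (h : ∀ p : Fin N → ℕ, (∀ i, p i ∈ Finset.range (2 * r + 1)) →
      ‖(1 / K : ℂ) * ∑ k ∈ Finset.range K, ∏ i, cexp (I * ((((p i : ℝ) - r) * x i k : ℝ) : ℂ)) -
        ∏ i, (ph ((p i : ℝ) - r) : ℂ)‖ ≤ ε) (U : Finset (Fin N)) (c : Fin N → ℝ) :
    (((Finset.range K).filter fun k => ∀ i ∈ U, |x i k - c i| ≤ δ).card : ℝ) ≤
      2 ^ U.card * (τ ^ U.card + ε) * K := by
  classical
  have hK0 : (0 : ℝ) < K := by exact_mod_cast hK
  set β : Fin N → ℕ → ℝ := fun i u => if i ∈ U then bb r u else (if u = r then 1 else 0) with hβ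
  have hβ0 : ∀ i u, 0 ≤ β i u := by
    intro i u
    simp only [hβ]
    split_ifs
    · exact bb_nonneg r u
    · exact zero_le_one
    · exact le_rfl
  have hrm : r ∈ Finset.range (2 * r + 1) := Finset.mem_range.2 (by omega)
  have hβ1 : ∀ i, ∑ u ∈ Finset.range (2 * r + 1), β i u = 1 := by
    intro i
    simp only [hβ]
    split_ifs with h1
    · exact bb_sum r
    · rw [Finset.sum_ite_eq' _ r, if_pos hrm]
  have ht := tensor β hβ0 hβ1 x c h
  have hval : ∀ k, ∏ i, ∑ u ∈ Finset.range (2 * r + 1),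
      (β i u : ℂ) * cexp (I * ((((u : ℝ) - r) * (x i k - c i) : ℝ) : ℂ)) =
      ((∏ i ∈ U, ((1 + Real.cos (x i k - c i)) / 2) ^ r : ℝ) : ℂ) := by
    intro k
    have e1 : ∀ i, ∑ u ∈ Finset.range (2 * r + 1),
      (β i u : ℂ) * cexp (I * ((((u : ℝ) - r) * (x i k - c i) : ℝ) : ℂ)) =
      if i ∈ U then ((((1 + Real.cos (x i k - c i)) / 2) ^ r : ℝ) : ℂ) else 1 := by
      intro i
      simp only [hβ]
      split_ifs with h1
      · rw [hexp]
      · rw [Finset.sum_eq_single r]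
        · simp
        · intro u _ hu
          rw [if_neg hu]
          simp
        · exact fun h2 => absurd hrm h2
    simp only [e1]
    rw [Finset.prod_ite_mem, Finset.univ_inter, Complex.ofReal_prod]
  have hph : ∏ i, ∑ u ∈ Finset.range (2 * r + 1), β i u * ph ((u : ℝ) - r) ≤ τ ^ U.card := by
    have e1 : ∀ i, ∑ u ∈ Finset.range (2 * r + 1), β i u * ph ((u : ℝ) - r) =
        if i ∈ U then ∫ y, ((1 + Real.cos y) / 2) ^ r ∂gn else 1 := by
      intro i
      simp only [hβ]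
      split_ifs with h1
      · rw [hmean]
      · rw [Finset.sum_eq_single r]
        · simp [ph]
        · intro u _ hu
          rw [if_neg hu, zero_mul]
        · exact fun h2 => absurd hrm h2
    simp only [e1]
    rw [Finset.prod_ite_mem, Finset.univ_inter, Finset.prod_const]
    apply pow_le_pow_left₀ _ hτ
    refine integral_nonneg fun y => pow_nonneg ?_ _
    linarith [Real.neg_one_le_cos y]
  simp only [hval] at ht
  rw [← Complex.ofReal_sum] at ht
  have e3 : ‖(1 / K : ℂ) * ((∑ k ∈ Finset.range K, ∏ i ∈ U,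
      ((1 + Real.cos (x i k - c i)) / 2) ^ r : ℝ) : ℂ)‖ = (1 / K : ℝ) * ∑ k ∈ Finset.range K, ∏ i ∈ U,
      ((1 + Real.cos (x i k - c i)) / 2) ^ r := by
    rw [norm_mul, Complex.norm_real, Real.norm_of_nonneg]
    · congr 1
      rw [norm_div, norm_one, Complex.norm_natCast]
    · refine Finset.sum_nonneg fun k _ => Finset.prod_nonneg fun i _ => pow_nonneg ?_ _
      linarith [Real.neg_one_le_cos (x i k - c i)]
  rw [e3] at ht
  have hlow : (1 / 2 : ℝ) ^ U.card * (((Finset.range K).filter fun k => ∀ i ∈ U, |x i k - c i| ≤ δ).card : ℝ) ≤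
      ∑ k ∈ Finset.range K, ∏ i ∈ U, ((1 + Real.cos (x i k - c i)) / 2) ^ r := by
    calc _ = ∑ k ∈ (Finset.range K).filter fun k => ∀ i ∈ U, |x i k - c i| ≤ δ,
          ∏ i ∈ U, (1 / 2 : ℝ) := by
          rw [Finset.sum_const, nsmul_eq_mul, Finset.prod_const]; ring
      _ ≤ ∑ k ∈ (Finset.range K).filter fun k => ∀ i ∈ U, |x i k - c i| ≤ δ,
          ∏ i ∈ U, ((1 + Real.cos (x i k - c i)) / 2) ^ r :=
          Finset.sum_le_sum fun k hk => Finset.prod_le_prod (fun i _ => by norm_num)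
            fun i hi => hδ _ ((Finset.mem_filter.1 hk).2 i hi)
      _ ≤ _ := Finset.sum_le_sum_of_subset_of_nonneg (Finset.filter_subset _ _) fun k _ _ =>
          Finset.prod_nonneg fun i _ => pow_nonneg (by linarith [Real.neg_one_le_cos (x i k - c i)]) _
  have h5 : (1 / K : ℝ) * ∑ k ∈ Finset.range K, ∏ i ∈ U,
      ((1 + Real.cos (x i k - c i)) / 2) ^ r ≤ τ ^ U.card + ε := ht.trans (by linarith)
  rw [one_div, inv_mul_le_iff₀ hK0] at h5
  have h6 := hlow.trans h5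
  have h7 : (2 : ℝ) ^ U.card * ((1 / 2 : ℝ) ^ U.card *
      (((Finset.range K).filter fun k => ∀ i ∈ U, |x i k - c i| ≤ δ).card : ℝ)) ≤
      2 ^ U.card * (K * (τ ^ U.card + ε)) := mul_le_mul_of_nonneg_left h6 (by positivity)
  rw [← mul_assoc, ← mul_pow] at h7
  norm_num at h7
  linarith

end Pool.Agent.R846.VE
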