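import Pool.Agent.R846.VE.A
import Pool.Agent.R846.VS.C

/-! # Sets of heights which agree with a model at a positive proportion of the places -/

set_option autoImplicit false

namespace Pool.Agent.R846.VE

open Filter Topology MeasureTheory Complex
open Pool.Agent.R846.VS (ph gn sel ph_pos ph_le)

/-- a polynomial is smaller than an exponential -/
lemma poly_exp (A q E : ℕ) {c : ℝ} (hc : 0 < c) : ∃ n : ℕ, 1 ≤ n ∧
    (A * (q * n : ℝ) ^ E) * (1 / 2) ^ n ≤ c := by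
  have h1 : Tendsto (fun n : ℕ => (n : ℝ) ^ E * (1 / 2 : ℝ) ^ n) atTop (𝓝 0) :=
    tendsto_pow_const_mul_const_pow_of_abs_lt_one E (by rw [abs_of_pos] <;> norm_num)
  have h2 : Tendsto (fun n : ℕ => (A * (q : ℝ) ^ E) * ((n : ℝ) ^ E * (1 / 2 : ℝ) ^ n)) atTop (𝓝 0) := by
    simpa using h1.const_mul (A * (q : ℝ) ^ E)
  obtain ⟨n, hn, hn1⟩ := ((h2.eventually_le_const hc).and (eventually_ge_atTop 1)).exists
  refine ⟨n, hn1, le_trans (le_of_eq ?_) hn⟩
  rw [mul_pow]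
  ring

/-- **density version of the core, for models with few patterns** -/
theorem core_v {ρ : ℝ} (hρ : 0 < ρ) (B : ℕ) : ∃ δ : ℝ, 0 < δ ∧ ∀ (A E : ℕ) (η : ℝ), 0 < η →
    ∃ (Ξ : Finset ℝ) (ε σ : ℝ), 0 < ε ∧ 0 < σ ∧ ∀ (K : ℕ), 1 ≤ K → ∀ T : ℝ, 0 < T → ∀ Z : ℕ → ℝ → ℝ,
    (∀ ξ ∈ Ξ, ∀ w : ℕ → ℂ, (∀ k, ‖w k‖ ≤ 1) → volume {t ∈ Set.Icc T (2 * T) |
      ε < ‖(1 / K : ℂ) * ∑ k ∈ Finset.range K, w k * (cexp (I * ((ξ * Z k t : ℝ) : ℂ)) - (ph ξ : ℂ))‖} ≤
      ENNReal.ofReal (σ * T)) →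
    ∀ {F D : Type} [DecidableEq D] (Pat : F → ℕ → D) (dec : D → Finset ℝ), (∀ x, (dec x).card ≤ B) →
    (∀ N : ℕ, 1 ≤ N → ∀ f : Fin N → F,
      ((Finset.range K).image fun k => fun i => Pat (f i) k).card ≤ A * N ^ E) →
    volume {t ∈ Set.Icc T (2 * T) | ∃ f : F, ρ * K ≤
      (({k : ℕ | k < K ∧ ∃ c ∈ dec (Pat f k), |Z k t - c| ≤ δ}).ncard : ℝ)} ≤ ENNReal.ofReal (η * T) := by
  classical
  obtain ⟨q, hq⟩ := exists_nat_gt (2 / ρ)
  have hq0 : (0 : ℝ) < q := lt_of_le_of_lt (by positivity) hq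
  have hq1 : 1 ≤ q := by
    have : (0 : ℝ) < q := hq0
    exact_mod_cast this
  rw [div_lt_iff₀ hρ] at hq
  obtain ⟨τ, hτ⟩ : ∃ τ : ℝ, τ = 1 / (4 * (2 * (B + 1)) ^ q) := ⟨_, rfl⟩
  have hτ0 : 0 < τ := by rw [hτ]; positivity
  obtain ⟨r, hr⟩ := Pool.Agent.R846.VD.mean_small hτ0
  obtain ⟨δ, hδ, hδ1⟩ : ∃ δ : ℝ, 0 < δ ∧ ∀ y : ℝ, |y| ≤ δ → 1 / 2 ≤ ((1 + Real.cos y) / 2) ^ r := by
    have hc : Continuous fun y : ℝ => ((1 + Real.cos y) / 2) ^ r := by fun_prop
    have h0 : (fun y : ℝ => ((1 + Real.cos y) / 2) ^ r) 0 = 1 := by simp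
    have h1 := (hc.tendsto 0).eventually_const_le (show (1 / 2 : ℝ) < (fun y : ℝ => ((1 + Real.cos y) / 2) ^ r) 0 by
      rw [h0]; norm_num)
    obtain ⟨s, hs, hs1⟩ := Metric.eventually_nhds_iff.1 h1
    refine ⟨s / 2, by positivity, fun y hy => hs1 ?_⟩
    rw [Real.dist_eq, sub_zero]
    linarith
  refine ⟨δ, hδ, fun A E η hη => ?_⟩
  obtain ⟨n, hn1, hn⟩ := poly_exp A q E (show 0 < ρ / 8 by positivity)
  have hnr : (1 : ℝ) ≤ n := by exact_mod_cast hn1
  obtain ⟨N, hN⟩ : ∃ N : ℕ, N = q * n := ⟨_, rfl⟩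
  have hN1 : 1 ≤ N := by rw [hN]; exact Nat.mul_pos hq1 hn1
  have hNr : (N : ℝ) = q * n := by rw [hN]; push_cast; ring
  have hN0 : (0 : ℝ) < N := by exact_mod_cast hN1
  obtain ⟨G, hG⟩ : ∃ G : ℝ, G = (A * (q * n : ℝ) ^ E) * 2 ^ N * (B + 1) ^ N * 2 ^ n + 1 := ⟨_, rfl⟩
  have hG0 : 0 < G := by rw [hG]; positivity
  obtain ⟨ε', hε'⟩ : ∃ ε' : ℝ, ε' = ρ / 8 / G := ⟨_, rfl⟩
  have hε'0 : 0 < ε' := by rw [hε']; positivity
  -- the frequency vectors
  set Θ : Finset (ℕ → ℝ) := (Fintype.piFinset fun _ : Fin N => Finset.range (2 * r + 1)).image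
    (fun p => fun i => if h : i < N then (p ⟨i, h⟩ : ℝ) - r else 0) with hΘ
  set Ξ : Finset ℝ := (Θ ×ˢ Finset.range N).image (fun q => q.1 q.2) with hΞ
  obtain ⟨σ, hσ⟩ : ∃ σ : ℝ, σ = η / (Θ.card + 1) := ⟨_, rfl⟩
  have hσ0 : 0 < σ := by rw [hσ]; positivity
  refine ⟨Ξ, ε' / N, σ, by positivity, hσ0, fun K hK T hT Z h F D _ Pat dec hdec hpat => ?_⟩
  have hK0 : (0 : ℝ) < K := by exact_mod_cast hK
  by_contra hcon
  rw [not_le] at hcon
  set Bs := {t ∈ Set.Icc T (2 * T) | ∃ f : F, ρ * K ≤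
      (({k : ℕ | k < K ∧ ∃ c ∈ dec (Pat f k), |Z k t - c| ≤ δ}).ncard : ℝ)} with hBs
  obtain ⟨s, hs1, hs2⟩ := sel Z (K := K) (ε := ε' / N) (σ := σ) (η := η) (by positivity) Θ N
    (fun θ hθ i hi w hw => h (θ i) (Finset.mem_image.2 ⟨(θ, i), Finset.mem_product.2
      ⟨hθ, Finset.mem_range.2 hi⟩, rfl⟩) w hw)
    (by
      rw [← ENNReal.ofReal_natCast, ← ENNReal.ofReal_mul (Nat.cast_nonneg _)]
      apply ENNReal.ofReal_le_ofReal
      rw [hσ, ← mul_assoc]
      apply mul_le_mul_of_nonneg_right _ hT.le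
      rw [mul_div_assoc', div_le_iff₀ (by positivity)]
      nlinarith)
    Bs (fun t ht => ht.1) hcon N le_rfl
  have hf : ∀ i : Fin N, ∃ f : F, ρ * K ≤
      (({k : ℕ | k < K ∧ ∃ c ∈ dec (Pat f k), |Z k (s i) - c| ≤ δ}).ncard : ℝ) :=
    fun i => (hs1 i i.isLt).2
  choose f hf using hf
  set J : Fin N → Finset ℕ := fun i => (Finset.range K).filter fun k =>
    ∃ c ∈ dec (Pat (f i) k), |Z k (s i) - c| ≤ δ with hJ
  have hJc : ∀ i, ρ * K ≤ ((J i).card : ℝ) := by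
    intro i
    refine (hf i).trans ?_
    have e1 : {k : ℕ | k < K ∧ ∃ c ∈ dec (Pat (f i) k), |Z k (s i) - c| ≤ δ} = (J i : Set ℕ) := by
      ext k
      simp only [hJ, Finset.coe_filter, Finset.mem_range, Set.mem_ofPred_eq]
    rw [e1, Set.ncard_coe_finset]
  -- boxes
  have hbox : ∀ (U : Finset (Fin N)) (c : Fin N → ℝ), U.card = n →
      (((Finset.range K).filter fun k => ∀ i ∈ U, |Z k (s i) - c i| ≤ δ).card : ℝ) ≤
      2 ^ n * (τ ^ n + ε') * K := by
    intro U c hU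
    have h1 := box (N := N) (K := K) (r := r) (δ := δ) (τ := τ) (ε := ε') hK hδ1 hr
      (fun i k => Z k (s i)) (fun p hp => ?_) U c
    · rw [hU] at h1
      exact h1
    · have hθmem : (fun i => if h : i < N then (p ⟨i, h⟩ : ℝ) - r else 0) ∈ Θ :=
        Finset.mem_image.2 ⟨p, Fintype.mem_piFinset.2 hp, rfl⟩
      rcases hs2 _ hθmem with h1 | h1
      swap
      · omega
      have e1 : ∀ k, ∏ i ∈ Finset.range N, cexp (I * (((if h : i < N then (p ⟨i, h⟩ : ℝ) - r else 0) *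
          Z k (s i) : ℝ) : ℂ)) = ∏ i : Fin N, cexp (I * ((((p i : ℝ) - r) * Z k (s i) : ℝ) : ℂ)) := by
        intro k
        rw [← Fin.prod_univ_eq_prod_range (fun i => cexp (I * (((if h : i < N then
          (p ⟨i, h⟩ : ℝ) - r else 0) * Z k (s i) : ℝ) : ℂ))) N]
        refine Finset.prod_congr rfl fun i _ => ?_
        rw [dif_pos i.isLt]
      have e2 : ∏ i ∈ Finset.range N, (ph (if h : i < N then (p ⟨i, h⟩ : ℝ) - r else 0) : ℂ) =
          ∏ i : Fin N, (ph ((p i : ℝ) - r) : ℂ) := by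
        rw [← Fin.prod_univ_eq_prod_range (fun i => (ph (if h : i < N then
          (p ⟨i, h⟩ : ℝ) - r else 0) : ℂ)) N]
        refine Finset.prod_congr rfl fun i _ => ?_
        rw [dif_pos i.isLt]
      simp only [e1, e2] at h1
      refine h1.trans (le_of_eq ?_)
      field_simp
  -- counting
  set m : ℕ → ℕ := fun k => ((Finset.univ : Finset (Fin N)).filter fun i => k ∈ J i).card with hm
  set A₁ := (Finset.range K).filter fun k => n ≤ m k with hA₁
  have hdouble : ∑ k ∈ Finset.range K, m k = ∑ i : Fin N, (J i).card := by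
    have e1 : ∀ k ∈ Finset.range K, m k = ∑ i : Fin N, if k ∈ J i then 1 else 0 := by
      intro k _
      rw [hm]
      simp only [Finset.card_filter]
    rw [Finset.sum_congr rfl e1, Finset.sum_comm]
    refine Finset.sum_congr rfl fun i _ => ?_
    rw [← Finset.card_filter]
    congr 1
    ext k
    rw [Finset.mem_filter]
    constructor
    · exact fun h => h.2
    · exact fun h => ⟨(Finset.mem_filter.1 h).1, h⟩
  have hlow : (N : ℝ) * (ρ * K) ≤ ((∑ k ∈ Finset.range K, m k : ℕ) : ℝ) := by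
    rw [hdouble]
    push_cast
    calc (N : ℝ) * (ρ * K) = ∑ i : Fin N, ρ * K := by
          rw [Finset.sum_const, Finset.card_univ, Fintype.card_fin, nsmul_eq_mul]
      _ ≤ _ := Finset.sum_le_sum fun i _ => hJc i
  have hup : ((∑ k ∈ Finset.range K, m k : ℕ) : ℝ) ≤ N * A₁.card + n * K := by
    have e1 : ∀ k ∈ Finset.range K, m k ≤ (if n ≤ m k then N else 0) + n := by
      intro k _
      split_ifs with h1
      · have : m k ≤ N := by
          rw [hm]
          exact (Finset.card_filter_le _ _).trans (by rw [Finset.card_univ, Fintype.card_fin])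
        omega
      · omega
    have e2 := Finset.sum_le_sum e1
    rw [Finset.sum_add_distrib, ← Finset.sum_filter, Finset.sum_const, Finset.sum_const,
      Finset.card_range, smul_eq_mul, smul_eq_mul] at e2
    have e3 : ((∑ k ∈ Finset.range K, m k : ℕ) : ℝ) ≤ ((A₁.card * N + K * n : ℕ) : ℝ) := by
      exact_mod_cast e2
    rw [Nat.cast_add, Nat.cast_mul, Nat.cast_mul] at e3
    linarith
  have hAlow : ρ / 2 * K ≤ (A₁.card : ℝ) := by
    have h1 : (N : ℝ) * (ρ * K) ≤ N * A₁.card + n * K := hlow.trans hup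
    have h2 : (n : ℝ) * K ≤ N * (ρ / 2 * K) := by
      rw [hNr]
      have h3 : (n : ℝ) * K * 2 ≤ (n : ℝ) * K * (q * ρ) := mul_le_mul_of_nonneg_left hq.le (by positivity)
      have h4 : (q * n : ℝ) * (ρ / 2 * K) = (n : ℝ) * K * (q * ρ) / 2 := by ring
      rw [h4]
      linarith
    have h3 : (N : ℝ) * (ρ / 2 * K) ≤ N * A₁.card := by
      have : (N : ℝ) * (ρ * K) = N * (ρ / 2 * K) + N * (ρ / 2 * K) := by ring
      linarith
    exact le_of_mul_le_mul_left h3 hN0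
  -- the patterns
  set pats := (Finset.range K).image fun k => fun i => Pat (f i) k with hpats
  have hpc : pats.card ≤ A * N ^ E := hpat N hN1 f
  set Cs : (Fin N → D) → Finset (Fin N → ℝ) := fun p =>
    Fintype.piFinset fun i => insert 0 (dec (p i)) with hCs
  have hCc : ∀ p, (Cs p).card ≤ (B + 1) ^ N := by
    intro p
    rw [hCs, Fintype.card_piFinset]
    calc _ ≤ ∏ i : Fin N, (B + 1) := Finset.prod_le_prod' fun i _ =>
          (Finset.card_insert_le _ _).trans (Nat.add_le_add_right (hdec _) 1)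
      _ = (B + 1) ^ N := by rw [Finset.prod_const, Finset.card_univ, Fintype.card_fin]
  have hcov : A₁ ⊆ pats.biUnion fun p => (Finset.univ : Finset (Finset (Fin N))).biUnion fun U =>
      (Cs p).biUnion fun c => if U.card = n then
        (Finset.range K).filter (fun k => ∀ i ∈ U, |Z k (s i) - c i| ≤ δ) else ∅ := by
    intro k hk
    obtain ⟨h1, h2⟩ := Finset.mem_filter.1 hk
    obtain ⟨U, hU1, hU2⟩ := Finset.exists_subset_card_eq h2
    have hUJ : ∀ i ∈ U, ∃ c ∈ dec (Pat (f i) k), |Z k (s i) - c| ≤ δ := by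
      intro i hi
      exact (Finset.mem_filter.1 (Finset.mem_filter.1 (hU1 hi)).2).2
    have hch : ∀ i, ∃ c ∈ insert 0 (dec (Pat (f i) k)), i ∈ U → |Z k (s i) - c| ≤ δ := by
      intro i
      by_cases hi : i ∈ U
      · obtain ⟨c, hc1, hc2⟩ := hUJ i hi
        exact ⟨c, Finset.mem_insert_of_mem hc1, fun _ => hc2⟩
      · exact ⟨0, Finset.mem_insert_self _ _, fun h => absurd h hi⟩
    choose c hc1 hc2 using hch
    rw [Finset.mem_biUnion]
    refine ⟨fun i => Pat (f i) k, Finset.mem_image.2 ⟨k, h1, rfl⟩, ?_⟩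
    rw [Finset.mem_biUnion]
    refine ⟨U, Finset.mem_univ _, ?_⟩
    rw [Finset.mem_biUnion]
    refine ⟨c, Fintype.mem_piFinset.2 hc1, ?_⟩
    rw [if_pos hU2]
    exact Finset.mem_filter.2 ⟨h1, fun i hi => hc2 i hi⟩
  have hX0 : 0 ≤ 2 ^ n * (τ ^ n + ε') * K := by positivity
  have hcard : (A₁.card : ℝ) ≤ (A * N ^ E : ℝ) * (2 ^ N * ((B + 1) ^ N * (2 ^ n * (τ ^ n + ε') * K))) := by
    have h1 : (A₁.card : ℝ) ≤ ∑ p ∈ pats, ∑ U ∈ (Finset.univ : Finset (Finset (Fin N))), ∑ c ∈ Cs p,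
        (((if U.card = n then
        (Finset.range K).filter (fun k => ∀ i ∈ U, |Z k (s i) - c i| ≤ δ) else ∅ : Finset ℕ).card : ℕ) : ℝ) := by
      have h2 : A₁.card ≤ ∑ p ∈ pats, ∑ U ∈ (Finset.univ : Finset (Finset (Fin N))), ∑ c ∈ Cs p,
        (if U.card = n then
        (Finset.range K).filter (fun k => ∀ i ∈ U, |Z k (s i) - c i| ≤ δ) else ∅ : Finset ℕ).card :=
        (Finset.card_le_card hcov).trans (Finset.card_biUnion_le.trans (Finset.sum_le_sum fun p _ =>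
          Finset.card_biUnion_le.trans (Finset.sum_le_sum fun U _ => Finset.card_biUnion_le)))
      exact_mod_cast h2
    refine h1.trans ?_
    calc _ ≤ ∑ p ∈ pats, ∑ U ∈ (Finset.univ : Finset (Finset (Fin N))), ∑ c ∈ Cs p,
          2 ^ n * (τ ^ n + ε') * K := by
          refine Finset.sum_le_sum fun p _ => Finset.sum_le_sum fun U _ => Finset.sum_le_sum fun c _ => ?_
          split_ifs with hU
          · exact hbox U c hU
          · simpa using hX0
      _ = ∑ p ∈ pats, 2 ^ N * ((Cs p).card * (2 ^ n * (τ ^ n + ε') * K)) := by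
          refine Finset.sum_congr rfl fun p _ => ?_
          rw [Finset.sum_const, Finset.sum_const, Finset.card_univ, Fintype.card_finset,
            Fintype.card_fin, nsmul_eq_mul, nsmul_eq_mul]
          push_cast
          ring
      _ ≤ ∑ p ∈ pats, 2 ^ N * ((B + 1) ^ N * (2 ^ n * (τ ^ n + ε') * K)) := by
          refine Finset.sum_le_sum fun p _ => ?_
          apply mul_le_mul_of_nonneg_left _ (by positivity)
          apply mul_le_mul_of_nonneg_right _ hX0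
          exact_mod_cast hCc p
      _ = (pats.card : ℝ) * (2 ^ N * ((B + 1) ^ N * (2 ^ n * (τ ^ n + ε') * K))) := by
          rw [Finset.sum_const, nsmul_eq_mul]
      _ ≤ _ := by
          apply mul_le_mul_of_nonneg_right _ (by positivity)
          exact_mod_cast hpc
  -- the contradiction
  have hpow : (2 : ℝ) ^ N * (B + 1) ^ N * (2 ^ n * τ ^ n) = (1 / 2) ^ n := by
    rw [hN, pow_mul, pow_mul, ← mul_pow, ← mul_pow, ← mul_pow]
    congr 1
    rw [hτ, ← mul_pow]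
    have : (0 : ℝ) < (2 * (B + 1)) ^ q := by positivity
    field_simp
    norm_num
  have hfin1 : (A * N ^ E : ℝ) * (2 ^ N * ((B + 1) ^ N * (2 ^ n * (τ ^ n) * K))) ≤ ρ / 8 * K := by
    have e1 : (A * N ^ E : ℝ) * (2 ^ N * ((B + 1) ^ N * (2 ^ n * (τ ^ n) * K))) =
        (A * N ^ E : ℝ) * ((2 : ℝ) ^ N * (B + 1) ^ N * (2 ^ n * τ ^ n)) * K := by ring
    rw [e1, hpow, hNr]
    exact mul_le_mul_of_nonneg_right hn hK0.le
  have hfin2 : (A * N ^ E : ℝ) * (2 ^ N * ((B + 1) ^ N * (2 ^ n * ε' * K))) ≤ ρ / 8 * K := by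
    have e1 : (A * N ^ E : ℝ) * (2 ^ N * ((B + 1) ^ N * (2 ^ n * ε' * K))) =
        ((A * (q * n : ℝ) ^ E) * 2 ^ N * (B + 1) ^ N * 2 ^ n) * ε' * K := by rw [hNr]; ring
    rw [e1]
    apply mul_le_mul_of_nonneg_right _ hK0.le
    rw [hε', mul_div_assoc', div_le_iff₀ hG0, mul_comm]
    apply mul_le_mul_of_nonneg_left _ (by positivity)
    rw [hG]
    linarith
  have hsplit : (A * N ^ E : ℝ) * (2 ^ N * ((B + 1) ^ N * (2 ^ n * (τ ^ n + ε') * K))) =
      (A * N ^ E : ℝ) * (2 ^ N * ((B + 1) ^ N * (2 ^ n * (τ ^ n) * K))) +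
      (A * N ^ E : ℝ) * (2 ^ N * ((B + 1) ^ N * (2 ^ n * ε' * K))) := by ring
  rw [hsplit] at hcard
  have : 0 < ρ * K := by positivity
  linarith

end Pool.Agent.R846.VE
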