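import Mathlib

/-! # Sign patterns of linear functionals -/

set_option autoImplicit false

namespace Pool.Agent.R846.VE

/-- a nonempty pattern is not realised when the functionals are dependent -/
lemma vc_lin {μ : Type} [Fintype μ] {N K : ℕ} (hN : 1 ≤ N) (φ : ℕ → μ → ℝ) (f : Fin N → μ → ℝ) :
    ((Finset.range K).image fun k =>
      (Finset.univ.filter fun i : Fin N => 0 < ∑ m, f i m * φ k m)).card ≤
      (Fintype.card μ + 1) * N ^ Fintype.card μ := by
  classical
  obtain ⟨D, hD⟩ : ∃ D, D = Fintype.card μ := ⟨_, rfl⟩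
  rw [← hD]
  set 𝒜 := (Finset.range K).image fun k =>
      (Finset.univ.filter fun i : Fin N => 0 < ∑ m, f i m * φ k m) with h𝒜
  have hvc : 𝒜.vcDim ≤ D := by
    unfold Finset.vcDim
    refine Finset.sup_le fun s hs => ?_
    rw [Finset.mem_shatterer] at hs
    by_contra hcon
    rw [not_le] at hcon
    -- a dependence
    set L : (s → ℝ) →ₗ[ℝ] (μ → ℝ) := Fintype.linearCombination ℝ fun i : s => f i with hL
    have hker : LinearMap.ker L ≠ ⊥ := by
      apply LinearMap.ker_ne_bot_of_finrank_lt
      rw [Module.finrank_fintype_fun_eq_card, Module.finrank_fintype_fun_eq_card, Fintype.card_coe,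
        ← hD]
      exact hcon
    obtain ⟨b, hb, hb0⟩ := (Submodule.ne_bot_iff _).mp hker
    rw [LinearMap.mem_ker] at hb
    -- a dependence with a positive coefficient
    obtain ⟨b, hb, i₀, hi₀⟩ : ∃ b : s → ℝ, L b = 0 ∧ ∃ i, 0 < b i := by
      obtain ⟨i, hi⟩ := Function.ne_iff.mp hb0
      rcases lt_or_gt_of_ne (show b i ≠ 0 from hi) with h1 | h1
      · refine ⟨-b, by rw [map_neg, hb, neg_zero], i, ?_⟩
        simp only [Pi.neg_apply]
        linarith
      · exact ⟨b, hb, i, h1⟩
    have hzero : ∀ k, ∑ i : s, b i * ∑ m, f i m * φ k m = 0 := by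
      intro k
      simp only [Finset.mul_sum]
      rw [Finset.sum_comm]
      refine Finset.sum_eq_zero fun m _ => ?_
      have h1 := congrFun hb m
      rw [hL, Fintype.linearCombination_apply] at h1
      have h2 : ∑ i : s, b i * f i m = 0 := by
        simpa [Finset.sum_apply, smul_eq_mul] using h1
      have h3 : ∀ i : s, b i * (f i m * φ k m) = (b i * f i m) * φ k m := fun i => by ring
      simp only [h3]
      rw [← Finset.sum_mul, h2, zero_mul]
    -- the pattern
    set S : Finset (Fin N) := s.filter fun i => ∃ h : i ∈ s, 0 < b ⟨i, h⟩ with hS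
    have hSs : S ⊆ s := Finset.filter_subset _ _
    obtain ⟨u, hu, hus⟩ := hs hSs
    rw [h𝒜, Finset.mem_image] at hu
    obtain ⟨k, _, rfl⟩ := hu
    have hiff : ∀ i : s, 0 < b i ↔ 0 < ∑ m, f i m * φ k m := by
      intro i
      have h1 : (i : Fin N) ∈ s ∩ (Finset.univ.filter fun i : Fin N => 0 < ∑ m, f i m * φ k m) ↔
          (i : Fin N) ∈ S := by rw [hus]
      rw [Finset.mem_inter, Finset.mem_filter] at h1
      rw [hS, Finset.mem_filter] at h1
      constructor
      · intro h2
        exact (h1.2 ⟨i.2, i.2, h2⟩).2.2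
      · intro h2
        obtain ⟨_, h3, h4⟩ := h1.1 ⟨i.2, Finset.mem_univ _, h2⟩
        exact h4
    have hpos : 0 < ∑ i : s, b i * ∑ m, f i m * φ k m := by
      refine Finset.sum_pos' (fun i _ => ?_) ⟨i₀, Finset.mem_univ _, mul_pos hi₀ ((hiff i₀).1 hi₀)⟩
      by_cases h1 : 0 < b i
      · exact (mul_pos h1 ((hiff i).1 h1)).le
      · have h2 : ¬ 0 < ∑ m, f i m * φ k m := fun h3 => h1 ((hiff i).2 h3)
        exact mul_nonneg_of_nonpos_of_nonpos (not_lt.1 h1) (not_lt.1 h2)
    exact absurd (hzero k) hpos.ne'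
  calc 𝒜.card ≤ 𝒜.shatterer.card := Finset.card_le_card_shatterer 𝒜
    _ ≤ ∑ k ∈ Finset.Iic 𝒜.vcDim, (Fintype.card (Fin N)).choose k := Finset.card_shatterer_le_sum_vcDim
    _ ≤ ∑ k ∈ Finset.Iic D, N.choose k := by
        rw [Fintype.card_fin]
        exact Finset.sum_le_sum_of_subset (Finset.Iic_subset_Iic.2 hvc)
    _ ≤ ∑ k ∈ Finset.Iic D, N ^ D := by
        refine Finset.sum_le_sum fun k hk => (Nat.choose_le_pow N k).trans ?_
        exact Nat.pow_le_pow_right hN (Finset.mem_Iic.1 hk)
    _ = (D + 1) * N ^ D := by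
        rw [Finset.sum_const, Nat.card_Iic, smul_eq_mul]

/-- the number of values of a tuple -/
lemma card_tuple {ι β : Type} [Fintype ι] [DecidableEq ι] [DecidableEq β] (s : Finset ℕ)
    (h : ℕ → ι → β) : (s.image h).card ≤ ∏ i, (s.image fun k => h k i).card := by
  classical
  rw [← Fintype.card_piFinset]
  refine Finset.card_le_card fun x hx => ?_
  obtain ⟨k, hk, rfl⟩ := Finset.mem_image.1 hx
  exact Fintype.mem_piFinset.2 fun i => Finset.mem_image.2 ⟨k, hk, rfl⟩

/-- the number of sign patterns -/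
lemma sign_lin {μ : Type} [Fintype μ] {D N K : ℕ} (hD : Fintype.card μ = D) (hN : 1 ≤ N)
    (φ : ℕ → μ → ℝ) (f : Fin N → μ → ℝ) :
    ((Finset.range K).image fun k => fun i : Fin N => SignType.sign (∑ m, f i m * φ k m)).card ≤
      ((D + 1) * N ^ D) * ((D + 1) * N ^ D) := by
  classical
  have h1 := vc_lin (K := K) hN φ f
  have h2 := vc_lin (K := K) hN φ (fun i m => - f i m)
  rw [hD] at h1 h2
  set A₁ := (Finset.range K).image fun k =>
      (Finset.univ.filter fun i : Fin N => 0 < ∑ m, f i m * φ k m) with hA₁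
  set A₂ := (Finset.range K).image fun k =>
      (Finset.univ.filter fun i : Fin N => 0 < ∑ m, - f i m * φ k m) with hA₂
  have h3 : ((Finset.range K).image fun k => fun i : Fin N =>
      SignType.sign (∑ m, f i m * φ k m)) ⊆ (A₁ ×ˢ A₂).image fun q => fun i : Fin N =>
        (if i ∈ q.1 then (1 : SignType) else if i ∈ q.2 then -1 else 0) := by
    intro x hx
    obtain ⟨k, hk, rfl⟩ := Finset.mem_image.1 hx
    refine Finset.mem_image.2 ⟨((Finset.univ.filter fun i : Fin N => 0 < ∑ m, f i m * φ k m),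
      (Finset.univ.filter fun i : Fin N => 0 < ∑ m, - f i m * φ k m)),
      Finset.mem_product.2 ⟨Finset.mem_image.2 ⟨k, hk, rfl⟩,
      Finset.mem_image.2 ⟨k, hk, rfl⟩⟩, ?_⟩
    funext i
    simp only [Finset.mem_filter, Finset.mem_univ, true_and]
    have e1 : ∑ m, - f i m * φ k m = - ∑ m, f i m * φ k m := by
      rw [← Finset.sum_neg_distrib]
      exact Finset.sum_congr rfl fun m _ => by ring
    rw [e1]
    rcases lt_trichotomy (∑ m, f i m * φ k m) 0 with g | g | g
    · rw [sign_neg g, if_neg (by linarith), if_pos (by linarith)]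
    · rw [g]; simp
    · rw [sign_pos g, if_pos g]
  refine (Finset.card_le_card h3).trans (Finset.card_image_le.trans ?_)
  rw [Finset.card_product]
  exact Nat.mul_le_mul h1 h2

/-- the number of sign patterns of several families -/
lemma sign_many {μ : Type} [Fintype μ] {D N K : ℕ} (hD : Fintype.card μ = D) {ι : Type} [Fintype ι]
    [DecidableEq ι] (hN : 1 ≤ N) (φ : ι → ℕ → μ → ℝ) (f : Fin N → μ → ℝ) :
    ((Finset.range K).image fun k => fun (i : Fin N) (g : ι) =>
      SignType.sign (∑ m, f i m * φ g k m)).card ≤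
      (((D + 1) * (D + 1)) ^ Fintype.card ι) * N ^ (2 * D * Fintype.card ι) := by
  classical
  have h1 : ((Finset.range K).image fun k => fun (i : Fin N) (g : ι) =>
      SignType.sign (∑ m, f i m * φ g k m)).card ≤
      ((Finset.range K).image fun k => fun (g : ι) (i : Fin N) =>
      SignType.sign (∑ m, f i m * φ g k m)).card := by
    have h2 : ((Finset.range K).image fun k => fun (i : Fin N) (g : ι) =>
      SignType.sign (∑ m, f i m * φ g k m)) ⊆ ((Finset.range K).image fun k => fun (g : ι) (i : Fin N) =>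
      SignType.sign (∑ m, f i m * φ g k m)).image (fun F i g => F g i) := by
      intro x hx
      obtain ⟨k, hk, rfl⟩ := Finset.mem_image.1 hx
      exact Finset.mem_image.2 ⟨_, Finset.mem_image.2 ⟨k, hk, rfl⟩, rfl⟩
    exact (Finset.card_le_card h2).trans Finset.card_image_le
  refine h1.trans ((card_tuple (Finset.range K) _).trans ?_)
  calc _ ≤ ∏ g : ι, ((D + 1) * N ^ D) * ((D + 1) * N ^ D) :=
        Finset.prod_le_prod' fun g _ => sign_lin hD hN (φ g) f
    _ = _ := by
        rw [Finset.prod_const, Finset.card_univ,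
          show ((D + 1) * N ^ D) * ((D + 1) * N ^ D) = ((D + 1) * (D + 1)) * N ^ (2 * D) by ring,
          mul_pow, ← pow_mul]

end Pool.Agent.R846.VE
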