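import Mathlib

/-! # Isolating the roots of a polynomial from signs at the points of a grid -/

set_option autoImplicit false

namespace Pool.Agent.R846.VE

open Polynomial

/-- a sign change gives a root -/
lemma root_of_sign (q : ℝ[X]) {u v : ℝ} (huv : u ≤ v)
    (h : SignType.sign (q.eval u) ≠ SignType.sign (q.eval v) ∨ SignType.sign (q.eval u) = 0) :
    ∃ y ∈ Set.Icc u v, q.eval y = 0 := by
  by_cases h1 : q.eval u = 0
  · exact ⟨u, ⟨le_rfl, huv⟩, h1⟩
  by_cases h2 : q.eval v = 0
  · exact ⟨v, ⟨huv, le_rfl⟩, h2⟩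
  have hc : ContinuousOn (fun x => q.eval x) (Set.Icc u v) := q.continuous.continuousOn
  rcases h with h | h
  swap
  · exact absurd (sign_eq_zero_iff.1 h) h1
  rcases lt_or_gt_of_ne h1 with g1 | g1
  · rcases lt_or_gt_of_ne h2 with g2 | g2
    · rw [sign_neg g1, sign_neg g2] at h
      exact absurd rfl h
    · obtain ⟨y, hy, hy0⟩ := intermediate_value_Icc huv hc ⟨g1.le, g2.le⟩
      exact ⟨y, hy, hy0⟩
  · rcases lt_or_gt_of_ne h2 with g2 | g2
    · obtain ⟨y, hy, hy0⟩ := intermediate_value_Icc' huv hc ⟨g2.le, g1.le⟩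
      exact ⟨y, hy, hy0⟩
    · rw [sign_pos g1, sign_pos g2] at h
      exact absurd rfl h

/-- if the signs of all derivatives agree and do not vanish at both ends there is no root -/
lemma noroot (e : ℕ) : ∀ (p : ℝ[X]), p.natDegree ≤ e → p ≠ 0 → ∀ u v : ℝ,
    (∀ r, derivative^[r] p ≠ 0 → SignType.sign ((derivative^[r] p).eval u) =
      SignType.sign ((derivative^[r] p).eval v) ∧ SignType.sign ((derivative^[r] p).eval u) ≠ 0) →
    ∀ x ∈ Set.Icc u v, p.eval x ≠ 0 := by
  induction e with
  | zero =>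
    intro p hp hp0 u v _ x _ hx
    rw [Nat.le_zero] at hp
    rw [eq_C_of_natDegree_eq_zero hp, eval_C] at hx
    apply hp0
    rw [eq_C_of_natDegree_eq_zero hp, hx, C_0]
  | succ e ih =>
    intro p hp hp0 u v h x hx hx0
    by_cases hd : derivative p = 0
    · have h1 := natDegree_eq_zero_of_derivative_eq_zero hd
      rw [eq_C_of_natDegree_eq_zero h1, eval_C] at hx0
      apply hp0
      rw [eq_C_of_natDegree_eq_zero h1, hx0, C_0]
    have hnd := ih (derivative p) (by
      have := natDegree_derivative_le p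
      omega) hd u v (fun r hr => by
        have h1 := h (r + 1)
        rw [Function.iterate_succ_apply] at h1
        exact h1 hr)
    obtain ⟨h2, h3⟩ := h 0 hp0
    simp only [Function.iterate_zero, id_eq] at h2 h3
    have hu0 : p.eval u ≠ 0 := fun h4 => h3 (by rw [h4, sign_zero])
    have hv0 : p.eval v ≠ 0 := fun h4 => h3 (by rw [h2, h4, sign_zero])
    have hux : u < x := lt_of_le_of_ne hx.1 (fun h4 => hu0 (by rw [h4]; exact hx0))
    have hxv : x < v := lt_of_le_of_ne hx.2 (fun h4 => hv0 (by rw [← h4]; exact hx0))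
    obtain ⟨a, ha, ha1⟩ := exists_hasDerivAt_eq_slope (fun y => p.eval y) (fun y => (derivative p).eval y)
      hux p.continuous.continuousOn (fun y _ => p.hasDerivAt y)
    obtain ⟨b, hb, hb1⟩ := exists_hasDerivAt_eq_slope (fun y => p.eval y) (fun y => (derivative p).eval y)
      hxv p.continuous.continuousOn (fun y _ => p.hasDerivAt y)
    simp only [hx0, zero_sub, sub_zero] at ha1 hb1
    have hab : a < b := ha.2.trans hb.1
    have h5 : 0 < x - u := by linarith
    have h6 : 0 < v - x := by linarith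
    obtain ⟨y, hy, hy0⟩ := root_of_sign (derivative p) hab.le (by
      left
      rw [ha1, hb1]
      rcases lt_or_gt_of_ne hu0 with g1 | g1
      · have g2 : p.eval v < 0 := by
          rw [sign_neg g1] at h2
          exact sign_eq_neg_one_iff.1 h2.symm
        rw [sign_pos (div_pos (by linarith) h5), sign_neg (div_neg_of_neg_of_pos g2 h6)]
        decide
      · have g2 : 0 < p.eval v := by
          rw [sign_pos g1] at h2
          exact sign_eq_one_iff.1 h2.symm
        rw [sign_neg (div_neg_of_neg_of_pos (by linarith) h5), sign_pos (div_pos g2 h6)]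
        decide)
    exact hnd y ⟨ha.1.le.trans hy.1, hy.2.trans hb.2.le⟩ hy0

/-- the bad intervals of the grid -/
noncomputable def badset {M d : ℕ} (S : Fin (M + 1) → Fin (d + 1) → SignType) : Finset (Fin M) := by
  classical
  exact Finset.univ.filter fun g => ∃ r, (∃ g', S g' r ≠ 0) ∧
    (S g.castSucc r ≠ S g.succ r ∨ S g.castSucc r = 0)

/-- the sign data of a polynomial -/
noncomputable def sdat (M d : ℕ) (θ : ℕ → ℝ) (p : ℝ[X]) (g : Fin (M + 1)) (r : Fin (d + 1)) : SignType :=
  SignType.sign ((derivative^[(r : ℕ)] p).eval (θ g))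

lemma natDegree_iter (p : ℝ[X]) (r : ℕ) : (derivative^[r] p).natDegree ≤ p.natDegree := by
  induction r with
  | zero => exact le_rfl
  | succ r ih =>
    rw [Function.iterate_succ_apply']
    have := natDegree_derivative_le (derivative^[r] p)
    omega

/-- there are few bad intervals -/
lemma bad_card {M d : ℕ} {θ : ℕ → ℝ} (hθ : StrictMono θ) {p : ℝ[X]} (hd : p.natDegree ≤ d) :
    (badset (sdat M d θ p)).card ≤ (d + 1) * (2 * d) := by
  classical
  set T : Fin (d + 1) → Finset (Fin M) := fun r => Finset.univ.filter fun g =>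
    (∃ g', sdat M d θ p g' r ≠ 0) ∧
    (sdat M d θ p g.castSucc r ≠ sdat M d θ p g.succ r ∨ sdat M d θ p g.castSucc r = 0) with hT
  have hsub : badset (sdat M d θ p) ⊆ Finset.univ.biUnion T := by
    intro g hg
    unfold badset at hg
    obtain ⟨_, r, hr⟩ := Finset.mem_filter.1 hg
    exact Finset.mem_biUnion.2 ⟨r, Finset.mem_univ _, Finset.mem_filter.2 ⟨Finset.mem_univ _, hr⟩⟩
  have hTc : ∀ r, (T r).card ≤ 2 * d := by
    intro r
    by_cases hne : ∃ g', sdat M d θ p g' r ≠ 0
    swap
    · have : T r = ∅ := by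
        rw [hT]
        exact Finset.filter_eq_empty_iff.2 fun g _ hg => hne hg.1
      rw [this, Finset.card_empty]
      exact Nat.zero_le _
    obtain ⟨g', hg'⟩ := hne
    have hq0 : derivative^[(r : ℕ)] p ≠ 0 := by
      intro h0
      apply hg'
      unfold sdat
      rw [h0, eval_zero, sign_zero]
    have hroot : ∀ g : Fin M, ∃ y : ℝ, g ∈ T r → y ∈ Set.Icc (θ g) (θ (g + 1)) ∧
        (derivative^[(r : ℕ)] p).eval y = 0 := by
      intro g
      by_cases hg : g ∈ T r
      · obtain ⟨_, _, h1⟩ := Finset.mem_filter.1 hg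
        unfold sdat at h1
        rw [Fin.val_castSucc, Fin.val_succ] at h1
        obtain ⟨y, hy, hy0⟩ := root_of_sign _ (hθ (Nat.lt_succ_self (g : ℕ))).le h1
        exact ⟨y, fun _ => ⟨hy, hy0⟩⟩
      · exact ⟨0, fun h => absurd h hg⟩
    choose y hy using hroot
    have hfib : ∀ a ∈ (T r).image y, ((T r).filter fun g => y g = a).card ≤ 2 := by
      intro a _
      rcases Finset.eq_empty_or_nonempty ((T r).filter fun g => y g = a) with h0 | h0
      · rw [h0]; simp
      obtain ⟨g₀, hg₀, hmin⟩ := Finset.exists_min_image _ (fun g : Fin M => (g : ℕ)) h0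
      obtain ⟨hg₀1, hg₀2⟩ := Finset.mem_filter.1 hg₀
      have h1 : ((T r).filter fun g => y g = a).image (fun g : Fin M => (g : ℕ)) ⊆
          Finset.Icc (g₀ : ℕ) (g₀ + 1) := by
        intro b hb
        obtain ⟨g, hg, rfl⟩ := Finset.mem_image.1 hb
        obtain ⟨hg1, hg2⟩ := Finset.mem_filter.1 hg
        rw [Finset.mem_Icc]
        refine ⟨hmin g hg, ?_⟩
        have h2 := (hy g₀ hg₀1).1.2
        have h3 := (hy g hg1).1.1
        rw [hg₀2] at h2
        rw [hg2] at h3
        exact hθ.le_iff_le.1 (h3.trans h2)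
      have h2 := Finset.card_le_card h1
      rw [Finset.card_image_of_injective _ Fin.val_injective, Nat.card_Icc] at h2
      omega
    have h1 := Finset.card_le_mul_card_image (f := y) (T r) 2 hfib
    have h2 : ((T r).image y).card ≤ d := by
      have h3 : (T r).image y ⊆ (derivative^[(r : ℕ)] p).roots.toFinset := by
        intro a ha
        obtain ⟨g, hg, rfl⟩ := Finset.mem_image.1 ha
        rw [Multiset.mem_toFinset, mem_roots hq0]
        exact (hy g hg).2
      calc _ ≤ (derivative^[(r : ℕ)] p).roots.toFinset.card := Finset.card_le_card h3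
        _ ≤ Multiset.card (derivative^[(r : ℕ)] p).roots := Multiset.toFinset_card_le _
        _ ≤ (derivative^[(r : ℕ)] p).natDegree := card_roots' _
        _ ≤ d := (natDegree_iter p r).trans hd
    omega
  calc _ ≤ (Finset.univ.biUnion T).card := Finset.card_le_card hsub
    _ ≤ ∑ r, (T r).card := Finset.card_biUnion_le
    _ ≤ ∑ r : Fin (d + 1), 2 * d := Finset.sum_le_sum fun r _ => hTc r
    _ = (d + 1) * (2 * d) := by
        rw [Finset.sum_const, Finset.card_univ, Fintype.card_fin, smul_eq_mul]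

/-- every root lies in a bad interval -/
lemma bad_root {M d : ℕ} (hM : d ≤ M) {θ : ℕ → ℝ} (hθ : StrictMono θ) {p : ℝ[X]} (hp : p ≠ 0)
    (hd : p.natDegree ≤ d) {x : ℝ} (hx : p.eval x = 0) (g : Fin M)
    (hg : x ∈ Set.Icc (θ g) (θ (g + 1))) : g ∈ badset (sdat M d θ p) := by
  classical
  by_contra hcon
  refine noroot d p hd hp (θ g) (θ (g + 1)) (fun r hr => ?_) x hg hx
  have hrd : r < d + 1 := by
    by_contra h1
    apply hr
    apply iterate_derivative_eq_zero
    omega
  have h1 : ¬ ((∃ g', sdat M d θ p g' ⟨r, hrd⟩ ≠ 0) ∧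
    (sdat M d θ p g.castSucc ⟨r, hrd⟩ ≠ sdat M d θ p g.succ ⟨r, hrd⟩ ∨
      sdat M d θ p g.castSucc ⟨r, hrd⟩ = 0)) := by
    intro h2
    apply hcon
    unfold badset
    exact Finset.mem_filter.2 ⟨Finset.mem_univ _, ⟨r, hrd⟩, h2⟩
  have h2 : ∃ g', sdat M d θ p g' ⟨r, hrd⟩ ≠ 0 := by
    by_contra h3
    push Not at h3
    apply hr
    refine eq_zero_of_natDegree_lt_card_of_eval_eq_zero (derivative^[r] p) (ι := Fin (M + 1))
      (f := fun g' => θ g') (fun a b hab => Fin.ext (hθ.injective hab)) (fun g' => ?_) ?_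
    · have h4 := h3 g'
      unfold sdat at h4
      exact sign_eq_zero_iff.1 h4
    · rw [Fintype.card_fin]
      have := natDegree_iter p r
      omega
  have h3 : ¬ (sdat M d θ p g.castSucc ⟨r, hrd⟩ ≠ sdat M d θ p g.succ ⟨r, hrd⟩ ∨
      sdat M d θ p g.castSucc ⟨r, hrd⟩ = 0) := fun h => h1 ⟨h2, h⟩
  push Not at h3
  unfold sdat at h3
  rw [Fin.val_castSucc, Fin.val_succ] at h3
  exact h3

end Pool.Agent.R846.VE
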