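import Pool.Agent.R846.VE.C
import Pool.Agent.R846.VE.D

/-! # Polynomials whose coefficients lie in a given space of sequences -/

set_option autoImplicit false

namespace Pool.Agent.R846.VE

open Polynomial

/-- the polynomial at the place `j` -/
noncomputable def pol {d κ : ℕ} (v : Fin κ → ℕ → ℝ) (f : Fin (d + 1) × Fin κ → ℝ) (j : ℕ) : ℝ[X] :=
  ∑ q : Fin (d + 1), C (∑ i : Fin κ, f (q, i) * v i j) * X ^ (q : ℕ)

/-- `x` is within `δ` of a root of the polynomial at the place `j` -/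
def Ag {d κ : ℕ} (v : Fin κ → ℕ → ℝ) (f : Fin (d + 1) × Fin κ → ℝ) (j : ℕ) (x δ : ℝ) : Prop :=
  pol v f j ≠ 0 ∧ ∃ y, (pol v f j).eval y = 0 ∧ |x - y| ≤ δ

lemma pol_deg {d κ : ℕ} (v : Fin κ → ℕ → ℝ) (f : Fin (d + 1) × Fin κ → ℝ) (j : ℕ) :
    (pol v f j).natDegree ≤ d := by
  unfold pol
  refine natDegree_sum_le_of_forall_le _ _ fun q _ => ?_
  refine (natDegree_C_mul_X_pow_le _ _).trans ?_
  have := q.isLt
  omega

lemma pol_iter {d κ : ℕ} (v : Fin κ → ℕ → ℝ) (f : Fin (d + 1) × Fin κ → ℝ) (j s : ℕ) (Y : ℝ) :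
    (derivative^[s] (pol v f j)).eval Y =
      ∑ m : Fin (d + 1) × Fin κ, f m * (v m.2 j * (derivative^[s] (X ^ (m.1 : ℕ) : ℝ[X])).eval Y) := by
  unfold pol
  rw [iterate_derivative_sum, eval_finsetSum, Fintype.sum_prod_type]
  refine Finset.sum_congr rfl fun q _ => ?_
  rw [iterate_derivative_C_mul, eval_mul, eval_C, Finset.sum_mul]
  refine Finset.sum_congr rfl fun i _ => ?_
  ring

/-- an affine change of the variable -/
lemma pol_shift {d κ : ℕ} (v : Fin κ → ℕ → ℝ) (f : Fin (d + 1) × Fin κ → ℝ) (t s : ℝ) :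
    ∃ f' : Fin (d + 1) × Fin κ → ℝ, ∀ j, pol v f' j = (pol v f j).comp (C t + C s * X) := by
  classical
  set ℓ : ℝ[X] := C t + C s * X with hℓ
  have hℓd : ℓ.natDegree ≤ 1 := by
    rw [hℓ]
    refine (natDegree_add_le _ _).trans (max_le ?_ ?_)
    · rw [natDegree_C]; exact Nat.zero_le _
    · exact (natDegree_C_mul_le _ _).trans natDegree_X_le
  refine ⟨fun m => ∑ q : Fin (d + 1), f (q, m.2) * (ℓ ^ (q : ℕ)).coeff m.1, fun j => ?_⟩
  have hq : ∀ q : Fin (d + 1), ℓ ^ (q : ℕ) = ∑ p : Fin (d + 1), C ((ℓ ^ (q : ℕ)).coeff p) * X ^ (p : ℕ) := by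
    intro q
    have h1 : (ℓ ^ (q : ℕ)).natDegree < d + 1 := by
      have h2 := natDegree_pow_le (p := ℓ) (n := (q : ℕ))
      have h3 := q.isLt
      have h4 : (q : ℕ) * ℓ.natDegree ≤ q * 1 := Nat.mul_le_mul_left _ hℓd
      omega
    conv_lhs => rw [as_sum_range_C_mul_X_pow' _ h1]
    rw [← Fin.sum_univ_eq_sum_range (fun p => C ((ℓ ^ (q : ℕ)).coeff p) * X ^ p) (d + 1)]
  have h1 : (pol v f j).comp ℓ = ∑ q : Fin (d + 1), C (∑ i : Fin κ, f (q, i) * v i j) * ℓ ^ (q : ℕ) := by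
    unfold pol
    rw [Polynomial.sum_comp]
    refine Finset.sum_congr rfl fun q _ => ?_
    rw [mul_comp, C_comp, X_pow_comp]
  rw [h1]
  have h2 : ∀ q : Fin (d + 1), C (∑ i : Fin κ, f (q, i) * v i j) * ℓ ^ (q : ℕ) =
      ∑ p : Fin (d + 1), C ((∑ i : Fin κ, f (q, i) * v i j) * (ℓ ^ (q : ℕ)).coeff p) * X ^ (p : ℕ) := by
    intro q
    conv_lhs => rw [hq q]
    rw [Finset.mul_sum]
    refine Finset.sum_congr rfl fun p _ => ?_
    rw [C_mul, mul_assoc]
  simp only [h2]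
  rw [Finset.sum_comm]
  unfold pol
  refine Finset.sum_congr rfl fun p _ => ?_
  rw [← Finset.sum_mul, ← map_sum]
  congr 2
  have h3 : ∀ i : Fin κ, (∑ q : Fin (d + 1), f (q, i) * (ℓ ^ (q : ℕ)).coeff p) * v i j =
      ∑ q : Fin (d + 1), f (q, i) * v i j * (ℓ ^ (q : ℕ)).coeff p := by
    intro i
    rw [Finset.sum_mul]
    refine Finset.sum_congr rfl fun q _ => ?_
    ring
  simp only [h3]
  rw [Finset.sum_comm]
  refine Finset.sum_congr rfl fun q _ => ?_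
  rw [Finset.sum_mul]

/-- the relative position of a root -/
lemma Ag_shift {d κ : ℕ} (v : Fin κ → ℕ → ℝ) (f : Fin (d + 1) × Fin κ → ℝ) (t : ℝ) {ℓ : ℝ} (hℓ : 0 < ℓ) :
    ∃ f' : Fin (d + 1) × Fin κ → ℝ, ∀ j x δ, Ag v f j x δ → Ag v f' j ((x - t) * ℓ) (δ * ℓ) := by
  obtain ⟨f', hf'⟩ := pol_shift v f t (ℓ⁻¹)
  have hev : ∀ j y, (pol v f' j).eval ((y - t) * ℓ) = (pol v f j).eval y := by
    intro j y
    rw [hf', eval_comp]
    congr 1
    simp only [eval_add, eval_C, eval_mul, eval_X]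
    field_simp
    ring
  refine ⟨f', fun j x δ h => ?_⟩
  obtain ⟨h1, y, hy, hxy⟩ := h
  refine ⟨fun h0 => h1 ?_, (y - t) * ℓ, by rw [hev]; exact hy, ?_⟩
  · apply Polynomial.funext
    intro z
    rw [← hev, h0]
    simp
  · have e1 : (x - t) * ℓ - (y - t) * ℓ = (x - y) * ℓ := by ring
    rw [e1, abs_mul, abs_of_pos hℓ]
    exact mul_le_mul_of_nonneg_right hxy hℓ.le

lemma Ag_mono {d κ : ℕ} {v : Fin κ → ℕ → ℝ} {f : Fin (d + 1) × Fin κ → ℝ} {j : ℕ} {x δ δ' : ℝ}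
    (h : Ag v f j x δ) (hδ : δ ≤ δ') : Ag v f j x δ' := by
  obtain ⟨h1, y, hy, hxy⟩ := h
  exact ⟨h1, y, hy, hxy.trans hδ⟩

/-- the index set of the sign data -/
abbrev Dat (M d : ℕ) : Type := Bool × Fin (M + 1) × Fin (d + 1)

/-- the grid -/
noncomputable def grid (r Q e : ℝ) (j : ℕ) (g : ℕ) : ℝ := j + r * (-Q + g * e)

lemma grid_mono {r Q e : ℝ} (hr : 0 < r) (he : 0 < e) (j : ℕ) : StrictMono (grid r Q e j) := by
  intro a b hab
  unfold grid
  have h1 : (a : ℝ) < b := by exact_mod_cast hab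
  have h2 : (a : ℝ) * e < b * e := mul_lt_mul_of_pos_right h1 he
  have h3 : r * (-Q + a * e) < r * (-Q + b * e) := mul_lt_mul_of_pos_left (by linarith) hr
  linarith

/-- the pattern of a model at the pair of places number `k` -/
noncomputable def Pt {d κ : ℕ} (M : ℕ) (r Q e : ℝ) (pl : ℕ → Bool → ℕ) (v : Fin κ → ℕ → ℝ)
    (f : Fin (d + 1) × Fin κ → ℝ) (k : ℕ) : Dat M d → SignType :=
  fun x => sdat M d (grid r Q e (pl k x.1)) (pol v f (pl k x.1)) x.2.1 x.2.2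

/-- the values allowed by a pattern -/
noncomputable def dec (M d : ℕ) (e : ℝ) (S : Dat M d → SignType) : Finset ℝ := by
  classical
  exact if (badset fun g r => S (false, g, r)).card ≤ (d + 1) * (2 * d) ∧
      (badset fun g r => S (true, g, r)).card ≤ (d + 1) * (2 * d) then
    ((badset fun g r => S (false, g, r)) ×ˢ (badset fun g r => S (true, g, r))).image
      fun x => Real.pi * e * ((x.2 : ℕ) - (x.1 : ℕ) : ℝ) else ∅

lemma dec_card (M d : ℕ) (e : ℝ) (S : Dat M d → SignType) :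
    (dec M d e S).card ≤ ((d + 1) * (2 * d)) * ((d + 1) * (2 * d)) := by
  classical
  unfold dec
  split_ifs with h
  · refine Finset.card_image_le.trans ?_
    rw [Finset.card_product]
    exact Nat.mul_le_mul h.1 h.2
  · simp

lemma pat_card {d κ N K : ℕ} (M : ℕ) (r Q e : ℝ) (pl : ℕ → Bool → ℕ) (v : Fin κ → ℕ → ℝ) (hN : 1 ≤ N)
    (f : Fin N → Fin (d + 1) × Fin κ → ℝ) :
    ((Finset.range K).image fun k => fun i => Pt M r Q e pl v (f i) k).card ≤
      ((((d + 1) * κ + 1) * ((d + 1) * κ + 1)) ^ Fintype.card (Dat M d)) *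
        N ^ (2 * ((d + 1) * κ) * Fintype.card (Dat M d)) := by
  classical
  have hD : Fintype.card (Fin (d + 1) × Fin κ) = (d + 1) * κ := by
    rw [Fintype.card_prod, Fintype.card_fin, Fintype.card_fin]
  have h1 := sign_many (K := K) (ι := Dat M d) hD hN
    (fun x k m => v m.2 (pl k x.1) * (derivative^[(x.2.2 : ℕ)] (X ^ (m.1 : ℕ) : ℝ[X])).eval
      (grid r Q e (pl k x.1) x.2.1)) f
  refine le_trans (le_of_eq ?_) h1
  congr 1
  refine Finset.image_congr fun k _ => ?_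
  funext i x
  unfold Pt sdat
  rw [pol_iter]

end Pool.Agent.R846.VE
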