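import Pool.Agent.R846.VE.B
import Pool.Agent.R846.VE.E
import Pool.Agent.R846.VE.F
import Pool.Agent.R846.VS.H

/-! # Pairs of places at a given distance, for roots of polynomials -/

set_option autoImplicit false

namespace Pool.Agent.R846.VE

open Filter Topology MeasureTheory
open Pool.Agent.Y743.CL (Zv Zv_meas)
open Pool.Agent.Y743.NC (dev dev_int dev_nonneg)
open Pool.Agent.R321.QA (hs)
open Pool.Agent.R846.VS (mom dev_meas dev_zero cheb union_bd edge pos1 Dd Dd_Zv Dd_sq Zv_dev' law_vol ph count_le)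
open SG (NZ ord ord_le_iff)

/-- the cell of a point -/
lemma cell {r Q e : ℝ} (hr : 0 < r) (he : 0 < e) {M : ℕ} (hM : 2 * Q < M * e) {j : ℕ} {X : ℝ}
    (hX : |X - j| ≤ Q * r) : ∃ g : Fin M, X ∈ Set.Icc (grid r Q e j g) (grid r Q e j (g + 1)) := by
  obtain ⟨z, hz⟩ : ∃ z : ℝ, z = ((X - j) / r + Q) / e := ⟨_, rfl⟩
  have hX' := abs_le.1 hX
  have h1 : -Q ≤ (X - j) / r := by
    rw [le_div_iff₀ hr]
    linarith
  have h2 : (X - j) / r ≤ Q := by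
    rw [div_le_iff₀ hr]
    linarith
  have hz0 : 0 ≤ z := by
    rw [hz]
    exact div_nonneg (by linarith) he.le
  have hzM : z < M := by
    rw [hz, div_lt_iff₀ he]
    linarith
  have hXz : X = j + r * (-Q + z * e) := by
    rw [hz]
    field_simp
    ring
  refine ⟨⟨⌊z⌋₊, (Nat.floor_lt hz0).2 hzM⟩, ?_, ?_⟩
  · unfold grid
    rw [hXz]
    have h3 := mul_le_mul_of_nonneg_right (Nat.floor_le hz0) he.le
    have h4 : r * (-Q + (⌊z⌋₊ : ℝ) * e) ≤ r * (-Q + z * e) := mul_le_mul_of_nonneg_left (by linarith) hr.le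
    linarith
  · unfold grid
    rw [hXz]
    have h3 := mul_le_mul_of_nonneg_right (Nat.lt_floor_add_one z).le he.le
    push_cast
    have h4 : r * (-Q + z * e) ≤ r * (-Q + ((⌊z⌋₊ : ℝ) + 1) * e) :=
      mul_le_mul_of_nonneg_left (by linarith) hr.le
    linarith

/-- one pair of places -/
lemma det_v {d κ M : ℕ} {T t e R δ δ₁ Q Q₁ e₃ r : ℝ} {a S x : ℕ} (hr : r = Real.sqrt (Real.log a))
    (ha : 1 ≤ Real.log a) (hT : 0 < Real.log T) (he0 : 0 < e) (hR : 0 ≤ R) (hS : 1 + R + 2 * e ≤ S * e)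
    (h2 : dev T x (t + 0) ≤ R ^ 2)
    (h3 : ∀ s ∈ Finset.Icc (-(S : ℤ)) S, dev T |(s : ℝ) * e| (t + hs (min (x : ℝ) (x + s * e)) T) ≤ e ^ 2)
    (h2' : dev T ((x + a : ℕ) : ℝ) (t + 0) ≤ R ^ 2)
    (h3' : ∀ s ∈ Finset.Icc (-(S : ℤ)) S,
      dev T |(s : ℝ) * e| (t + hs (min ((x + a : ℕ) : ℝ) ((x + a : ℕ) + s * e)) T) ≤ e ^ 2)
    (hQ₁ : 0 ≤ Q₁) (hq1 : dev T x (t + 0) ≤ (Q₁ * r) ^ 2)
    (hq2 : dev T ((x + a : ℕ) : ℝ) (t + 0) ≤ (Q₁ * r) ^ 2)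
    (v : Fin κ → ℕ → ℝ) (f : Fin (d + 1) × Fin κ → ℝ)
    (d1 : Ag v f x ((ord (NZ t + 1 + x) - t) * (Real.log T / (2 * Real.pi))) δ₁)
    (d2 : Ag v f (x + a) ((ord (NZ t + 1 + (x + a)) - t) * (Real.log T / (2 * Real.pi))) δ₁)
    (hQ : 1 + Q₁ * r + 2 * e + δ₁ ≤ Q * r) (he₃ : 0 < e₃) (hM : 2 * Q < M * e₃) (hdM : d ≤ M)
    (hfin : Real.pi * e₃ + Real.pi / r * (4 * e + 2 * δ₁) ≤ δ) :
    ∃ c ∈ dec M d e₃ (fun y : Dat M d => sdat M d (grid r Q e₃ (if y.1 then x + a else x))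
      (pol v f (if y.1 then x + a else x)) y.2.1 y.2.2), |Zv a T (t + hs x T) - c| ≤ δ := by
  classical
  have hpi := Real.pi_pos
  have hs1 : 1 ≤ r := by rw [hr]; exact Real.one_le_sqrt.2 ha
  have hr0 : 0 < r := by linarith
  have hQr : 0 ≤ Q₁ * r := by positivity
  obtain ⟨ℓ, hℓ⟩ : ∃ ℓ : ℝ, ℓ = Real.log T / (2 * Real.pi) := ⟨_, rfl⟩
  have hℓ0 : 0 < ℓ := by rw [hℓ]; positivity
  have g1 := pos1 (x := x) hT he0 hR hS h2 h3
  have g2 := pos1 (x := x + a) hT he0 hR hS h2' h3'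
  have hZ := Dd_Zv (a := a) (by linarith) T t (x : ℝ)
  rw [← hr] at hZ
  rw [← Dd_sq] at hq1 hq2
  have hD1 : |Dd T t x| ≤ Q₁ * r := abs_le_of_sq_le_sq hq1 hQr
  have hD2 : |Dd T t ((x + a : ℕ) : ℝ)| ≤ Q₁ * r := abs_le_of_sq_le_sq hq2 hQr
  push_cast at g1 g2 hD2
  rw [← hℓ] at g1 g2 d1 d2
  obtain ⟨z, hz⟩ : ∃ z, z = Zv a T (t + hs (x : ℝ) T) := ⟨_, rfl⟩
  obtain ⟨o1, ho1⟩ : ∃ o, o = ord (NZ t + 1 + x) := ⟨_, rfl⟩
  obtain ⟨o2, ho2⟩ : ∃ o, o = ord (NZ t + 1 + (x + a)) := ⟨_, rfl⟩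
  obtain ⟨D1, hDD1⟩ : ∃ D, D = Dd T t (x : ℝ) := ⟨_, rfl⟩
  obtain ⟨D2, hDD2⟩ : ∃ D, D = Dd T t ((x : ℝ) + a) := ⟨_, rfl⟩
  rw [← ho1, ← hDD1] at g1
  rw [← ho2, ← hDD2] at g2
  rw [← hDD1] at hD1
  rw [← hDD2] at hD2
  rw [← hDD1, ← hDD2, ← hz] at hZ
  rw [← ho1] at d1
  rw [← ho2] at d2
  rw [← hz]
  obtain ⟨p1, X1, hX1, hX1'⟩ := d1
  obtain ⟨p2, X2, hX2, hX2'⟩ := d2
  have a1 := abs_le.1 g1
  have a2 := abs_le.1 g2
  have a3 := abs_le.1 hD1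
  have a4 := abs_le.1 hD2
  have a5 := abs_le.1 hX1'
  have a6 := abs_le.1 hX2'
  have r1 : |X1 - (x : ℕ)| ≤ Q * r := by
    rw [abs_le]
    constructor <;> linarith
  have r2 : |X2 - ((x + a : ℕ) : ℝ)| ≤ Q * r := by
    push_cast
    rw [abs_le]
    constructor <;> linarith
  obtain ⟨c1, hc1⟩ := cell hr0 he₃ hM r1
  obtain ⟨c2, hc2⟩ := cell hr0 he₃ hM r2
  have b1 := bad_root hdM (grid_mono (Q := Q) hr0 he₃ x) p1 (pol_deg v f x) hX1 c1 hc1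
  have b2 := bad_root hdM (grid_mono (Q := Q) hr0 he₃ (x + a)) p2 (pol_deg v f (x + a)) hX2 c2 hc2
  have k1 := bad_card (M := M) (grid_mono (Q := Q) hr0 he₃ x) (pol_deg v f x)
  have k2 := bad_card (M := M) (grid_mono (Q := Q) hr0 he₃ (x + a)) (pol_deg v f (x + a))
  refine ⟨Real.pi * e₃ * ((c2 : ℕ) - (c1 : ℕ) : ℝ), ?_, ?_⟩
  · unfold dec
    have hb : (badset fun g s => (fun y : Dat M d => sdat M d (grid r Q e₃ (if y.1 then x + a else x))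
      (pol v f (if y.1 then x + a else x)) y.2.1 y.2.2) (false, g, s)) =
        badset (sdat M d (grid r Q e₃ x) (pol v f x)) := by rfl
    have hb' : (badset fun g s => (fun y : Dat M d => sdat M d (grid r Q e₃ (if y.1 then x + a else x))
      (pol v f (if y.1 then x + a else x)) y.2.1 y.2.2) (true, g, s)) =
        badset (sdat M d (grid r Q e₃ (x + a)) (pol v f (x + a))) := by rfl
    rw [hb, hb', if_pos ⟨k1, k2⟩]
    exact Finset.mem_image.2 ⟨(c1, c2), Finset.mem_product.2 ⟨b1, b2⟩, rfl⟩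
  · have u1 := hc1.1
    have u2 := hc1.2
    have u3 := hc2.1
    have u4 := hc2.2
    unfold grid at u1 u2 u3 u4
    push_cast at u1 u2 u3 u4
    have e0 : z - Real.pi * e₃ * ((c2 : ℕ) - (c1 : ℕ) : ℝ) =
        Real.pi / r * (r / Real.pi * z - r * e₃ * ((c2 : ℕ) - (c1 : ℕ) : ℝ)) := by
      field_simp
    have f1 : |r / Real.pi * z - r * e₃ * ((c2 : ℕ) - (c1 : ℕ) : ℝ)| ≤ r * e₃ + (4 * e + 2 * δ₁) := by
      have e1 : r / Real.pi * z = D1 - D2 := by linarith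
      rw [e1, abs_le]
      constructor
      · linarith
      · linarith
    rw [e0, abs_mul, abs_of_pos (by positivity)]
    refine (mul_le_mul_of_nonneg_left f1 (by positivity)).trans (le_trans (le_of_eq ?_) hfin)
    field_simp

/-- numerical facts -/
lemma num_v {δ r Q Q₁ e e₃ δ₁ : ℝ} (hδ : 0 < δ) (hr1 : 1 ≤ r) (hQ : Q = 1 + Q₁ + δ)
    (he : e = δ * r / 64) (he₃ : e₃ = δ / 16) (hδ₁0 : 0 ≤ δ₁) (hδ₁r : 2 * Real.pi * δ₁ ≤ δ / 4 * r) :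
    1 + Q₁ * r + 2 * e + δ₁ ≤ Q * r ∧ Real.pi * e₃ + Real.pi / r * (4 * e + 2 * δ₁) ≤ δ := by
  have hpi := Real.pi_pos
  have hpi3 := Real.pi_gt_three
  have hpi4 := Real.pi_lt_four
  have hr0 : 0 < r := by linarith
  have j4 : 0 < δ * r := by positivity
  constructor
  · have j2 : 6 * δ₁ ≤ 2 * Real.pi * δ₁ := mul_le_mul_of_nonneg_right (by linarith) hδ₁0
    have j3 : Q * r = r + Q₁ * r + δ * r := by rw [hQ]; ring
    linarith
  · have j2 : Real.pi / r * (4 * e + 2 * δ₁) ≤ δ / 2 := by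
      rw [div_mul_eq_mul_div, div_le_iff₀ hr0, he]
      have j3 : Real.pi * (4 * (δ * r / 64)) ≤ 4 * (4 * (δ * r / 64)) :=
        mul_le_mul_of_nonneg_right hpi4.le (by positivity)
      have j4 : Real.pi * (4 * (δ * r / 64) + 2 * δ₁) =
        Real.pi * (4 * (δ * r / 64)) + 2 * Real.pi * δ₁ := by ring
      rw [j4]
      linarith
    have j5 : Real.pi * e₃ ≤ 4 * e₃ := mul_le_mul_of_nonneg_right hpi4.le (by rw [he₃]; positivity)
    rw [he₃] at j5 ⊢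
    linarith

/-- the positions of a pair -/
def pls (xs : ℕ → ℕ) (a : ℕ) (k : ℕ) (y : Bool) : ℕ := if y then xs k + a else xs k

open Classical in
/-- **the deterministic part** -/
lemma good_v {d κ M : ℕ} {T t e R δ ρ η Q Q₁ e₃ r H : ℝ} {a S L K : ℕ} (xs : ℕ → ℕ) (P : Finset ℕ)
    (hρ : 0 < ρ) (hη : 0 < η) (hδ : 0 < δ) (hK : 1 ≤ K) (hr : r = Real.sqrt (Real.log a))
    (ha : 1 ≤ Real.log a) (hT : 0 < Real.log T) (he0 : 0 < e) (hR : 0 ≤ R) (hS : 1 + R + 2 * e ≤ S * e)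
    (hLr : Real.sqrt (Real.log L) ≤ 2 * r) (hloga : Real.log L ≤ 2 * Real.log a)
    (hP1 : ∀ k < K, xs k ∈ P) (hP2 : ∀ k < K, xs k + a ∈ P)
    (hG : Good4 P K xs a S T R e H t) (hH : H = 32 * K * Real.log L / η)
    (hQ₁0 : 0 < Q₁) (hQ₁2 : Q₁ ^ 2 = 1024 / (ρ * η)) (hQ : Q = 1 + Q₁ + δ)
    (he : e = δ * r / 64) (he₃ : e₃ = δ / 16) (hM : 2 * Q < M * e₃) (hdM : d ≤ M)
    (v : Fin κ → ℕ → ℝ) (f : Fin (d + 1) × Fin κ → ℝ)
    (hcc : ρ * K ≤ (((Finset.range K).filter fun k =>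
      Ag v f (xs k) (ord (NZ t + 1 + xs k)) (δ / 8 * Real.sqrt (Real.log L) / Real.log T) ∧
      Ag v f (xs k + a) (ord (NZ t + 1 + (xs k + a)))
        (δ / 8 * Real.sqrt (Real.log L) / Real.log T)).card : ℝ)) :
    ∃ f' : Fin (d + 1) × Fin κ → ℝ, ρ / 2 * K ≤ (({k : ℕ | k < K ∧
      ∃ c ∈ dec M d e₃ (Pt M r Q e₃ (pls xs a) v f' k),
        |Zv a T (t + hs (xs k) T) - c| ≤ δ}).ncard : ℝ) := by
  have hpi := Real.pi_pos
  have hKr : (1 : ℝ) ≤ K := by exact_mod_cast hK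
  have hr1 : 1 ≤ r := by rw [hr]; exact Real.one_le_sqrt.2 ha
  have hr0 : 0 < r := by linarith
  have hr2 : r ^ 2 = Real.log a := by rw [hr]; exact Real.sq_sqrt (by linarith)
  have hℓ0 : 0 < Real.log T / (2 * Real.pi) := by positivity
  obtain ⟨f', hf'⟩ := Ag_shift v f t hℓ0
  refine ⟨f', ?_⟩
  obtain ⟨δ₁, hδ₁⟩ : ∃ δ₁ : ℝ, δ₁ = δ / 8 * Real.sqrt (Real.log L) / Real.log T *
    (Real.log T / (2 * Real.pi)) := ⟨_, rfl⟩
  have hδ₁r : 2 * Real.pi * δ₁ ≤ δ / 4 * r := by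
    have h1 : 2 * Real.pi * δ₁ = δ / 8 * Real.sqrt (Real.log L) := by
      rw [hδ₁]; field_simp
    rw [h1]
    have h2 : δ / 8 * Real.sqrt (Real.log L) ≤ δ / 8 * (2 * r) :=
      mul_le_mul_of_nonneg_left hLr (by positivity)
    linarith
  have hδ₁0 : 0 ≤ δ₁ := by
    rw [hδ₁]
    positivity
  obtain ⟨hn1, hn2⟩ := num_v hδ hr1 hQ he he₃ hδ₁0 hδ₁r
  have he₃0 : 0 < e₃ := by rw [he₃]; positivity
  set z : ℕ → ℝ := fun k => Real.sqrt (dev T (xs k) (t + 0) + dev T ((xs k + a : ℕ) : ℝ) (t + 0)) with hz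
  have hz2 : ∀ k, z k ^ 2 = dev T (xs k) (t + 0) + dev T ((xs k + a : ℕ) : ℝ) (t + 0) := fun k =>
    Real.sq_sqrt (add_nonneg (dev_nonneg _ _ _) (dev_nonneg _ _ _))
  have hbadk : (((Finset.range K).filter fun k => Q₁ * r < |z k|).card : ℝ) ≤ ρ / 16 * K := by
    have h1 : ∑ k ∈ Finset.range K, z k ^ 2 ≤ H := by
      simp only [hz2]
      exact hG.1
    refine (count_le _ _ (by positivity) h1).trans ?_
    rw [div_le_iff₀ (by positivity), mul_pow, hQ₁2, hr2, hH]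
    have e1 : ρ / 16 * K * (1024 / (ρ * η) * Real.log a) = 32 * K * (2 * Real.log a) / η := by
      field_simp
      ring
    rw [e1]
    apply div_le_div_of_nonneg_right _ hη.le
    exact mul_le_mul_of_nonneg_left hloga (by positivity)
  set J := (Finset.range K).filter fun k =>
    Ag v f (xs k) (ord (NZ t + 1 + xs k)) (δ / 8 * Real.sqrt (Real.log L) / Real.log T) ∧
    Ag v f (xs k + a) (ord (NZ t + 1 + (xs k + a)))
      (δ / 8 * Real.sqrt (Real.log L) / Real.log T) with hJ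
  set J' := J.filter fun k => |z k| ≤ Q₁ * r with hJ'
  have hJJ' : (J.card : ℝ) ≤ J'.card + ρ / 16 * K := by
    have h1 : J ⊆ J' ∪ (Finset.range K).filter fun k => Q₁ * r < |z k| := by
      intro k hk
      by_cases h2 : |z k| ≤ Q₁ * r
      · exact Finset.mem_union_left _ (Finset.mem_filter.2 ⟨hk, h2⟩)
      · exact Finset.mem_union_right _ (Finset.mem_filter.2
          ⟨(Finset.mem_filter.1 hk).1, not_le.1 h2⟩)
    have h2 := (Finset.card_le_card h1).trans (Finset.card_union_le _ _)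
    have h3 : (J.card : ℝ) ≤ J'.card +
        (((Finset.range K).filter fun k => Q₁ * r < |z k|).card : ℝ) := by exact_mod_cast h2
    exact h3.trans (add_le_add le_rfl hbadk)
  have hsub : (J' : Set ℕ) ⊆ {k : ℕ | k < K ∧ ∃ c ∈ dec M d e₃ (Pt M r Q e₃ (pls xs a) v f' k),
      |Zv a T (t + hs (xs k) T) - c| ≤ δ} := by
    intro k hk
    obtain ⟨hk1, hk2⟩ := Finset.mem_filter.1 (Finset.mem_coe.1 hk)
    obtain ⟨h1, h2, h3⟩ := Finset.mem_filter.1 hk1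
    have hkK := Finset.mem_range.1 h1
    have hm1 := hP1 k hkK
    have hm2 := hP2 k hkK
    refine ⟨hkK, ?_⟩
    have hz3 : z k ^ 2 ≤ (Q₁ * r) ^ 2 := by
      rw [← sq_abs (z k)]
      exact pow_le_pow_left₀ (abs_nonneg _) hk2 2
    rw [hz2] at hz3
    have n1 := dev_nonneg T (xs k) (t + 0)
    have n2 := dev_nonneg T ((xs k + a : ℕ) : ℝ) (t + 0)
    have i1 := hf' _ _ _ h2
    have i2 := hf' _ _ _ h3
    rw [← hδ₁] at i1 i2
    exact det_v (M := M) (e := e) (R := R) (S := S) (Q := Q) (Q₁ := Q₁)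
      hr ha hT he0 hR hS (hG.2.1 _ hm1) (hG.2.2 _ hm1) (hG.2.1 _ hm2)
      (hG.2.2 _ hm2) hQ₁0.le (by linarith only [hz3, n2]) (by linarith only [hz3, n1]) v f' i1 i2 hn1
      he₃0 hM hdM hn2
  have hfinS : {k : ℕ | k < K ∧ ∃ c ∈ dec M d e₃ (Pt M r Q e₃ (pls xs a) v f' k),
      |Zv a T (t + hs (xs k) T) - c| ≤ δ}.Finite :=
    (Finset.range K).finite_toSet.subset fun k hk => Finset.mem_coe.2 (Finset.mem_range.2 hk.1)
  have h5 := Set.ncard_le_ncard hsub hfinS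
  rw [Set.ncard_coe_finset] at h5
  have h6 : (J'.card : ℝ) ≤ ({k : ℕ | k < K ∧ ∃ c ∈ dec M d e₃ (Pt M r Q e₃ (pls xs a) v f' k),
      |Zv a T (t + hs (xs k) T) - c| ≤ δ}.ncard : ℝ) := by exact_mod_cast h5
  have h7 : ρ * K ≤ (J.card : ℝ) := hcc
  have h8 : 0 < ρ * K := by positivity
  linarith only [h6, h7, h8, hJJ']

end Pool.Agent.R846.VE
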