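import Pool.Agent.R846.VE.G

/-! # Pairs of places at a given distance, for roots of polynomials -/

set_option autoImplicit false

namespace Pool.Agent.R846.VE

open Filter Topology MeasureTheory
open Pool.Agent.Y743.CL (Zv Zv_meas)
open Pool.Agent.Y743.NC (dev dev_int dev_nonneg)
open Pool.Agent.R321.QA (hs)
open Pool.Agent.R846.VS (mom dev_meas dev_zero cheb union_bd edge pos1 Dd Dd_Zv Dd_sq Zv_dev' law_vol ph count_le)
open SG (NZ ord ord_le_iff)

open Classical in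
/-- **pairs of places at a given distance** -/
theorem pair_v (d : ℕ) {ρ : ℝ} (hρ : 0 < ρ) : ∃ ε₂ : ℝ, 0 < ε₂ ∧ ∀ (κ Sb : ℕ) (η : ℝ), 1 ≤ Sb → 0 < η →
    ∃ K : ℕ, 1 ≤ K ∧ ∃ L₀ : ℕ, ∀ L : ℕ, L₀ ≤ L → ∀ T : ℝ, 1 ≤ T → (L : ℝ) * Real.log L ≤ 2 * Real.log T →
    ∀ x₀ a b : ℕ, L ≤ Sb * (K * b) → 2 * (K * b) ≤ a → x₀ + K * b + a ≤ L → ∀ v : Fin κ → ℕ → ℝ,
    volume {t ∈ Set.Icc T (2 * T) | ∃ f : Fin (d + 1) × Fin κ → ℝ, ρ * K ≤ (((Finset.range K).filter fun k =>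
      Ag v f (x₀ + k * b) (ord (NZ t + 1 + (x₀ + k * b))) (ε₂ * Real.sqrt (Real.log L) / Real.log T) ∧
      Ag v f (x₀ + k * b + a) (ord (NZ t + 1 + (x₀ + k * b + a)))
        (ε₂ * Real.sqrt (Real.log L) / Real.log T)).card : ℝ)} ≤ ENNReal.ofReal (η * T) := by
  classical
  obtain ⟨C, R₀, hC, hexc⟩ := exc4
  obtain ⟨δ, hδ, hcore⟩ := core_v (show 0 < ρ / 2 by positivity) (((d + 1) * (2 * d)) * ((d + 1) * (2 * d)))
  refine ⟨δ / 8, by positivity, fun κ Sb η hSb hη => ?_⟩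
  obtain ⟨ε₁, hε₁d⟩ : ∃ ε₁ : ℝ, ε₁ = 13 * δ / 32 := ⟨_, rfl⟩
  have hε₁ : 0 < ε₁ := by rw [hε₁d]; positivity
  obtain ⟨Q₁, hQ₁⟩ : ∃ Q₁ : ℝ, Q₁ = Real.sqrt (1024 / (ρ * η)) := ⟨_, rfl⟩
  have hQ₁0 : 0 < Q₁ := by rw [hQ₁]; exact Real.sqrt_pos.2 (by positivity)
  have hQ₁2 : Q₁ ^ 2 = 1024 / (ρ * η) := by rw [hQ₁]; exact Real.sq_sqrt (by positivity)
  obtain ⟨Q, hQ⟩ : ∃ Q : ℝ, Q = 1 + Q₁ + δ := ⟨_, rfl⟩
  obtain ⟨e₃, he₃⟩ : ∃ e₃ : ℝ, e₃ = δ / 16 := ⟨_, rfl⟩
  have he₃0 : 0 < e₃ := by rw [he₃]; positivity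
  obtain ⟨M, hM⟩ : ∃ M : ℕ, M = ⌈2 * Q / e₃⌉₊ + 1 + d := ⟨_, rfl⟩
  have hdM : d ≤ M := by omega
  have hMQ : 2 * Q < M * e₃ := by
    have h1 : 2 * Q / e₃ < M := by
      rw [hM]; push_cast
      have h2 := Nat.le_ceil (2 * Q / e₃)
      have h3 : (0 : ℝ) ≤ d := Nat.cast_nonneg d
      linarith
    rwa [div_lt_iff₀ he₃0] at h1
  obtain ⟨Ξ, ε, σ, hε, hσ, hc⟩ := hcore
    ((((d + 1) * κ + 1) * ((d + 1) * κ + 1)) ^ Fintype.card (Dat M d))
    (2 * ((d + 1) * κ) * Fintype.card (Dat M d)) (η / 4) (by positivity)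
  obtain ⟨K0, hK0⟩ := law_vol 2 (by norm_num) Ξ hε (show 0 < σ / 2 by positivity)
  set K := max K0 1 with hK
  have hK1 : 1 ≤ K := le_max_right _ _
  have hKr : (1 : ℝ) ≤ K := by exact_mod_cast hK1
  have hSbr : (1 : ℝ) ≤ Sb := by exact_mod_cast hSb
  obtain ⟨R1, hR1, hlaw⟩ := hK0 K (le_max_left _ _) (1 / Sb) (by positivity)
  set Q₂ := Real.sqrt (64 * K / η) with hQ₂
  have hQ₂0 : 0 < Q₂ := Real.sqrt_pos.2 (by positivity)
  have hQ₂2 : Q₂ ^ 2 = 64 * K / η := Real.sq_sqrt (by positivity)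
  set S := ⌈26 * (1 + 2 * Q₂) / ε₁⌉₊ + 2 with hS
  have hSQ : 26 * (1 + 2 * Q₂) / ε₁ + 2 ≤ S := by
    rw [hS]; push_cast
    linarith [Nat.le_ceil (26 * (1 + 2 * Q₂) / ε₁)]
  have hS0 : (0 : ℝ) ≤ S := Nat.cast_nonneg S
  set r₀ := 4 * K * (2 * S + 1) * (S * ε₁ / 26 + C) * 5408 / (η * ε₁ ^ 2) + 1 with hr₀
  have hr₀0 : 1 ≤ r₀ := by
    rw [hr₀]
    have : 0 ≤ 4 * K * (2 * S + 1) * (S * ε₁ / 26 + C) * 5408 / (η * ε₁ ^ 2) := by positivity
    linarith
  set A₀ := Real.exp (2 * (r₀ ^ 2 + (S * ε₁ / 26) ^ 2) + C + 4) + |R₀| + Sb * R1 + Sb ^ 2 + 224 / η +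
    28 / σ + 3 with hA₀
  refine ⟨K, hK1, ⌈A₀⌉₊, fun L hL T hT hLT x₀ a b hLb hba hxL v => ?_⟩
  have hLA : A₀ ≤ L := (Nat.le_ceil A₀).trans (by exact_mod_cast hL)
  have hexp0 := Real.exp_pos (2 * (r₀ ^ 2 + (S * ε₁ / 26) ^ 2) + C + 4)
  have h224' : 0 ≤ 224 / η := by positivity
  have h28' : 0 ≤ 28 / σ := by positivity
  have hR₀' := abs_nonneg R₀
  have hSR : 0 ≤ Sb * R1 := by positivity
  have hSb2 : (0 : ℝ) ≤ (Sb : ℝ) ^ 2 := by positivity
  have hLR₀ : R₀ ≤ L := by linarith [le_abs_self R₀]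
  have hLR1 : Sb * R1 ≤ L := by linarith
  have hLSb : (Sb : ℝ) ^ 2 ≤ L := by linarith
  have hL224 : 224 / η ≤ L := by linarith
  have hL28 : 28 / σ ≤ L := by linarith
  have hL3 : (3 : ℝ) ≤ L := by linarith
  have hL0 : (0 : ℝ) < L := by linarith
  have hlogA : 2 * (r₀ ^ 2 + (S * ε₁ / 26) ^ 2) + C + 4 ≤ Real.log L := by
    rw [Real.le_log_iff_exp_le hL0]
    linarith
  -- the distance `a`
  have haL : a ≤ L := by omega
  have haLr : (a : ℝ) ≤ L := by exact_mod_cast haL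
  have hLa : 2 * L ≤ Sb * a := by
    calc 2 * L ≤ 2 * (Sb * (K * b)) := Nat.mul_le_mul_left _ hLb
      _ = Sb * (2 * (K * b)) := by ring
      _ ≤ Sb * a := Nat.mul_le_mul_left _ hba
  have hLar : 2 * (L : ℝ) ≤ Sb * a := by exact_mod_cast hLa
  have ha0 : (0 : ℝ) < a := by
    by_contra hcon
    have : (Sb : ℝ) * a ≤ 0 := mul_nonpos_of_nonneg_of_nonpos (by linarith) (not_lt.1 hcon)
    linarith
  have ha1 : 1 ≤ a := by exact_mod_cast ha0
  have hLa2 : (L : ℝ) ≤ (a : ℝ) ^ 2 := by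
    have h1 : (2 * (L : ℝ)) * (2 * L) ≤ (Sb * a) * (Sb * a) :=
      mul_le_mul hLar hLar (by linarith) (by positivity)
    have h2 : (Sb : ℝ) ^ 2 * L ≤ (Sb : ℝ) ^ 2 * (a : ℝ) ^ 2 := by
      have h3 : (Sb : ℝ) ^ 2 * L ≤ L * L := mul_le_mul_of_nonneg_right hLSb hL0.le
      have h4 : (2 * (L : ℝ)) * (2 * L) = 4 * (L * L) := by ring
      have h5 : (Sb * (a : ℝ)) * (Sb * a) = (Sb : ℝ) ^ 2 * (a : ℝ) ^ 2 := by ring
      have h6 : 0 ≤ (L : ℝ) * L := by positivity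
      linarith
    exact le_of_mul_le_mul_left h2 (by positivity)
  have hloga : Real.log L ≤ 2 * Real.log a := by
    calc Real.log L ≤ Real.log ((a : ℝ) ^ 2) := Real.log_le_log hL0 hLa2
      _ = 2 * Real.log a := by rw [Real.log_pow]; norm_num
  have hq1 := sq_nonneg r₀
  have hq2 := sq_nonneg (S * ε₁ / 26)
  have hla1 : 1 ≤ Real.log a := by linarith
  set r := Real.sqrt (Real.log a) with hr
  have hr2 : r ^ 2 = Real.log a := Real.sq_sqrt (by linarith)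
  have hr1 : 1 ≤ r := Real.one_le_sqrt.2 hla1
  have hrr₀ : r₀ ≤ r := Real.le_sqrt_of_sq_le (by linarith)
  have hrS : S * ε₁ / 26 ≤ r := Real.le_sqrt_of_sq_le (by linarith)
  have hlogLr : Real.sqrt (Real.log L) ≤ 2 * r := by
    calc Real.sqrt (Real.log L) ≤ Real.sqrt (2 ^ 2 * Real.log a) := Real.sqrt_le_sqrt (by linarith)
      _ = 2 * r := by rw [Real.sqrt_mul (by norm_num), Real.sqrt_sq (by norm_num)]
  set e := ε₁ * r / 26 with he
  have he0 : 0 < e := by rw [he]; positivity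
  have hra : r ^ 2 ≤ a := by
    rw [hr2]
    linarith [Real.log_le_sub_one_of_pos ha0]
  have hSe : (S : ℝ) * e ≤ L := by
    have h1 : (S : ℝ) * e = (S * ε₁ / 26) * r := by rw [he]; ring
    have h2 : (S * ε₁ / 26) * r ≤ r * r := mul_le_mul_of_nonneg_right hrS (by linarith)
    have h3 : r * r = r ^ 2 := by ring
    linarith
  have hlog1 : Real.log (1 + 2 * L) + C ≤ 2 * Real.log L := by
    have h1 : Real.log (1 + 2 * L) ≤ Real.log 3 + Real.log L := by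
      rw [← Real.log_mul (by norm_num) (by linarith)]
      exact Real.log_le_log (by linarith) (by linarith)
    have h2 : Real.log 3 ≤ 2 := by
      have := Real.log_le_sub_one_of_pos (by norm_num : (0 : ℝ) < 3)
      linarith
    linarith
  have hT0 : 0 < T := by linarith
  have hlogL1 : 1 ≤ Real.log L := by linarith
  have hLlogT : (L : ℝ) ≤ Real.log T := by
    have : (L : ℝ) * 2 ≤ L * Real.log L := mul_le_mul_of_nonneg_left (by linarith) hL0.le
    linarith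
  have hLT0 : 0 < Real.log T := by linarith
  have hTL : (L : ℝ) ≤ T := by
    have := Real.log_le_sub_one_of_pos hT0
    linarith
  have haT : (a : ℝ) * Real.log a ≤ 2 * Real.log T := by
    refine le_trans ?_ hLT
    exact mul_le_mul haLr (Real.log_le_log ha0 haLr) (by linarith) (by linarith)
  set H := 32 * K * Real.log L / η with hH
  set xs : ℕ → ℕ := fun k => x₀ + k * b with hxs
  set P : Finset ℕ := (Finset.range K).image xs ∪ (Finset.range K).image (fun k => xs k + a) with hP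
  have hPc : P.card ≤ 4 * K := by
    refine (Finset.card_union_le _ _).trans ?_
    have h1 : ((Finset.range K).image xs).card ≤ K := by
      simpa using Finset.card_image_le (s := Finset.range K) (f := xs)
    have h2 : ((Finset.range K).image (fun k => xs k + a)).card ≤ K := by
      simpa using Finset.card_image_le (s := Finset.range K) (f := fun k => xs k + a)
    omega
  have hxsle : ∀ k < K, xs k + a ≤ L := by
    intro k hk
    have : k * b ≤ K * b := Nat.mul_le_mul_right _ hk.le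
    simp only [hxs]
    omega
  have hPle : ∀ x ∈ P, x ≤ L := by
    intro x hx
    rcases Finset.mem_union.1 hx with h | h
    · obtain ⟨k, hk, rfl⟩ := Finset.mem_image.1 h
      have := hxsle k (Finset.mem_range.1 hk)
      omega
    · obtain ⟨k, hk, rfl⟩ := Finset.mem_image.1 h
      exact hxsle k (Finset.mem_range.1 hk)
  have hRS : 1 + Q₂ * Real.sqrt (Real.log L) + 2 * e ≤ S * e := by
    have h1 : (26 * (1 + 2 * Q₂) / ε₁ + 2) * e ≤ S * e := mul_le_mul_of_nonneg_right hSQ he0.le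
    have h3 : (26 * (1 + 2 * Q₂) / ε₁ + 2) * e = (1 + 2 * Q₂) * r + 2 * e := by
      rw [he]; field_simp
    have h4 : Q₂ * Real.sqrt (Real.log L) ≤ Q₂ * (2 * r) := mul_le_mul_of_nonneg_left hlogLr hQ₂0.le
    have h5 : (1 + 2 * Q₂) * r = r + Q₂ * (2 * r) := by ring
    linarith
  have hbad := hexc P K xs a L S T (Q₂ * Real.sqrt (Real.log L)) e H η hPc hPle
    hxsle hK1 hη hLR₀ hT hLT ha1 haL hSe hlog1 he0 rfl
    (by rw [mul_pow, hQ₂2, Real.sq_sqrt (by linarith)]) (by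
      have h1 : Real.log (1 + S * e) ≤ S * e := by
        have := Real.log_le_sub_one_of_pos (by positivity : 0 < 1 + (S : ℝ) * e)
        linarith
      have h2 : S * e + C ≤ (S * ε₁ / 26 + C) * r := by
        have : C ≤ C * r := le_mul_of_one_le_right hC.le hr1
        have h3 : (S : ℝ) * e = S * ε₁ / 26 * r := by rw [he]; ring
        rw [h3]; linarith
      have h3 : 4 * K * (2 * S + 1) * (S * ε₁ / 26 + C) ≤ η * ε₁ ^ 2 * r / 5408 := by
        have h4 : 4 * K * (2 * S + 1) * (S * ε₁ / 26 + C) * 5408 / (η * ε₁ ^ 2) ≤ r := by linarith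
        rw [div_le_iff₀ (by positivity)] at h4
        linarith
      calc 4 * K * (2 * S + 1) * (Real.log (1 + S * e) + C)
          ≤ 4 * K * (2 * S + 1) * ((S * ε₁ / 26 + C) * r) := by
            apply mul_le_mul_of_nonneg_left (by linarith) (by positivity)
        _ = 4 * K * (2 * S + 1) * (S * ε₁ / 26 + C) * r := by ring
        _ ≤ η * ε₁ ^ 2 * r / 5408 * r := mul_le_mul_of_nonneg_right h3 (by linarith)
        _ = η / 8 * e ^ 2 := by rw [he]; ring) hL224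
  -- the law
  have hba' : 2 * ((K : ℝ) * b) ≤ a := by exact_mod_cast hba
  have hLb' : (L : ℝ) ≤ Sb * (K * b) := by exact_mod_cast hLb
  set m : ℝ := K * b with hm
  have hkm : ∀ k : ℕ, (k : ℝ) * m / K = k * b := fun k => by
    rw [hm]; field_simp
  have hR1a : R1 ≤ a := by
    have h1 : Sb * R1 ≤ Sb * (a : ℝ) := by linarith
    exact le_of_mul_le_mul_left h1 (by linarith)
  have hlaw' := hlaw a T m hR1a hT haT (by
    rw [one_div, inv_mul_le_iff₀ (by linarith)]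
    linarith) (by linarith)
  simp only [hkm] at hlaw'
  have hh0 : 0 ≤ hs (x₀ : ℝ) T := by
    unfold hs; positivity
  have hh14 : hs (x₀ : ℝ) T ≤ 14 := by
    unfold hs
    rw [div_le_iff₀ hLT0]
    have h1 : (x₀ : ℝ) ≤ L := by exact_mod_cast (by omega : x₀ ≤ L)
    have h2 := Real.pi_lt_four
    have h3 := Real.pi_pos
    have h4 : 2 * Real.pi * x₀ ≤ 8 * L := mul_le_mul (by linarith) h1 (Nat.cast_nonneg _) (by norm_num)
    linarith
  have hZlaw : ∀ ξ ∈ Ξ, ∀ w : ℕ → ℂ, (∀ k, ‖w k‖ ≤ 1) → volume {t ∈ Set.Icc T (2 * T) |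
      ε < ‖(1 / K : ℂ) * ∑ k ∈ Finset.range K,
        w k * (Complex.exp (Complex.I * ((ξ * Zv a T (t + hs (xs k) T) : ℝ) : ℂ)) - (ph ξ : ℂ))‖} ≤
      ENNReal.ofReal (σ * T) := by
    intro ξ hξ w hw
    have h1 := hlaw' ξ hξ w hw
    set E : Set ℝ := {t ∈ Set.Icc T (2 * T) | ε < ‖(1 / K : ℂ) * ∑ k ∈ Finset.range K,
      w k * (Complex.exp (Complex.I * ((ξ * Zv a T (t + hs (k * b) T) : ℝ) : ℂ)) - (ph ξ : ℂ))‖} with hE
    have hsub : {t ∈ Set.Icc T (2 * T) | ε < ‖(1 / K : ℂ) * ∑ k ∈ Finset.range K,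
        w k * (Complex.exp (Complex.I * ((ξ * Zv a T (t + hs (xs k) T) : ℝ) : ℂ)) - (ph ξ : ℂ))‖} ⊆
        (fun t => t + hs (x₀ : ℝ) T) ⁻¹' E ∪ Set.Icc (2 * T - 14) (2 * T) := by
      rintro t ⟨⟨ht1, ht2⟩, ht3⟩
      by_cases h2 : t ≤ 2 * T - 14
      · left
        refine ⟨⟨by linarith, by linarith⟩, ?_⟩
        have h3 : ∀ k : ℕ, t + hs (x₀ : ℝ) T + hs (k * b) T = t + hs (xs k) T := by
          intro k
          simp only [hxs]
          unfold hs
          push_cast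
          ring
        simp only [h3]
        exact ht3
      · right
        exact ⟨(not_le.1 h2).le, ht2⟩
    refine (measure_mono hsub).trans ((measure_union_le _ _).trans ?_)
    rw [measure_preimage_add_right, Real.volume_Icc]
    refine (add_le_add h1 le_rfl).trans ?_
    rw [← ENNReal.ofReal_add (by positivity) (by linarith)]
    apply ENNReal.ofReal_le_ofReal
    have h4 : 28 ≤ σ * T := by
      rw [div_le_iff₀ hσ] at hL28
      have : (L : ℝ) * σ ≤ T * σ := mul_le_mul_of_nonneg_right hTL hσ.le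
      linarith
    linarith
  have hgood := hc K hK1 T hT0 (fun k t => Zv a T (t + hs (xs k) T)) hZlaw
    (fun (f : Fin (d + 1) × Fin κ → ℝ) k => Pt M r Q e₃ (pls xs a) v f k) (dec M d e₃) (dec_card M d e₃)
    (fun N hN f => pat_card M r Q e₃ (pls xs a) v hN f)
  have hem : e = δ * r / 64 := by rw [he, hε₁d]; ring
  have hP1 : ∀ k < K, xs k ∈ P := fun k hk =>
    Finset.mem_union_left _ (Finset.mem_image.2 ⟨k, Finset.mem_range.2 hk, rfl⟩)
  have hP2 : ∀ k < K, xs k + a ∈ P := fun k hk =>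
    Finset.mem_union_right _ (Finset.mem_image.2 ⟨k, Finset.mem_range.2 hk, rfl⟩)
  have hR0 : 0 ≤ Q₂ * Real.sqrt (Real.log L) := mul_nonneg hQ₂0.le (Real.sqrt_nonneg _)
  refine (measure_mono ?_).trans ((measure_union_le _ _).trans
    ((add_le_add hbad hgood).trans ?_))
  · rintro t ⟨ht, f, hcc⟩
    by_cases hG : Good4 P K xs a S T (Q₂ * Real.sqrt (Real.log L)) e H t
    swap
    · left
      exact ⟨ht, hG⟩
    right
    exact ⟨ht, good_v xs P hρ hη hδ hK1 hr hla1 hLT0 he0 hR0 hRS hlogLr hloga hP1 hP2 hG hH hQ₁0 hQ₁2 hQ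
      hem he₃ hMQ hdM v f hcc⟩
  · rw [← ENNReal.ofReal_add (by positivity) (by positivity)]
    apply ENNReal.ofReal_le_ofReal
    have h1 := mul_pos hη hT0
    linarith only [h1]

end Pool.Agent.R846.VE
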