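import Pool.Agent.R846.VE.J

/-! # The theorem for subspaces -/

set_option autoImplicit false

open Filter Topology MeasureTheory Set

namespace Pool.Agent.R846.VE

open SG (ord NZ)
open Polynomial
open Pool.Agent.R846.UL (cn cn_eq cn_mono)
open Pool.Agent.R846.VD (span_fam)

/-- **algebraic equations with coefficients in a given space** -/
theorem alg_sub (d : ℕ) {ρ : ℝ} (hρ : 0 < ρ) : ∃ δ : ℝ, 0 < δ ∧ ∀ (k : ℕ) (η : ℝ), 0 < η → ∃ L₀ : ℕ,
    ∀ L : ℕ, L₀ ≤ L → ∀ N : ℕ, 1 ≤ N → (L : ℝ) * Real.log L ≤ Real.log N →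
    ∀ V : Submodule ℝ (Fin (L + 1) → ℝ), Module.finrank ℝ V ≤ k →
    cn N {n | ∃ w : Fin (d + 1) → Fin (L + 1) → ℝ, (∀ q, w q ∈ V) ∧ ρ * L ≤
      (({j : Fin (L + 1) | (∃ q, w q j ≠ 0) ∧ ∃ x : ℝ, ∑ q, w q j * x ^ (q : ℕ) = 0 ∧
        |ord (n + j) - x| ≤ δ * Real.sqrt (Real.log L) / Real.log (ord n)} :
          Set (Fin (L + 1))).ncard : ℝ)} ≤ η * N := by
  classical
  obtain ⟨δ, hδ, h⟩ := ord_v d hρ
  refine ⟨δ, hδ, fun k η hη => ?_⟩
  obtain ⟨L0, hL0⟩ := h k η hη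
  refine ⟨L0, fun L hL N hN hLN V hV => ?_⟩
  obtain ⟨v, hv⟩ := span_fam k L V hV
  refine le_trans (cn_mono fun n _ _ hn => ?_) (hL0 L hL N hN hLN v)
  obtain ⟨w, hw, hwj⟩ := hn
  choose a ha using fun q => hv (w q) (hw q)
  obtain ⟨f, hf⟩ : ∃ f : Fin (d + 1) × Fin k → ℝ, f = fun m => a m.1 m.2 := ⟨_, rfl⟩
  have hpol : ∀ j : Fin (L + 1), pol v f j = ∑ q : Fin (d + 1), C (w q j) * X ^ (q : ℕ) := by
    intro j
    unfold pol
    refine Finset.sum_congr rfl fun q _ => ?_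
    congr 2
    rw [hf, ← ha q j j.isLt]
  refine ⟨f, hwj.trans ?_⟩
  rw [Set.ncard_eq_toFinset_card']
  have h1 : (({j : Fin (L + 1) | (∃ q, w q j ≠ 0) ∧ ∃ x : ℝ, ∑ q, w q j * x ^ (q : ℕ) = 0 ∧
        |ord (n + j) - x| ≤ δ * Real.sqrt (Real.log L) / Real.log (ord n)} :
          Set (Fin (L + 1))).toFinset).card ≤
      ((Finset.range (L + 1)).filter fun j => Ag v f j (ord (n + j))
        (δ * Real.sqrt (Real.log L) / Real.log (ord n))).card := by
    refine Finset.card_le_card_of_injOn (fun j => (j : ℕ)) ?_ (fun a _ b _ h => Fin.ext h)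
    intro j hj
    rw [Set.coe_toFinset] at hj
    simp only [Finset.coe_filter, Finset.mem_range, Set.mem_ofPred_eq]
    refine ⟨j.isLt, ?_⟩
    obtain ⟨⟨q₀, hq₀⟩, x, hx, hxd⟩ := hj
    refine ⟨fun h0 => hq₀ ?_, x, ?_, hxd⟩
    · have h2 : (pol v f j).coeff q₀ = w q₀ j := by
        rw [hpol, finset_sum_coeff]
        simp only [coeff_C_mul_X_pow]
        rw [Finset.sum_eq_single q₀]
        · rw [if_pos rfl]
        · intro q _ hq
          rw [if_neg]
          intro h3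
          exact hq (Fin.ext h3.symm)
        · exact fun h3 => absurd (Finset.mem_univ _) h3
      rw [← h2, h0, coeff_zero]
    · rw [hpol, eval_finsetSum]
      simp only [eval_mul, eval_C, eval_pow, eval_X]
      exact hx
  exact_mod_cast h1

/-- **linear relations with variable coefficients** -/
theorem var_lin {ρ : ℝ} (hρ : 0 < ρ) : ∃ δ : ℝ, 0 < δ ∧ ∀ (k r : ℕ) (η : ℝ), 0 < η → ∃ L₀ : ℕ,
    ∀ L : ℕ, L₀ ≤ L → ∀ N : ℕ, 1 ≤ N → (L : ℝ) * Real.log L ≤ Real.log N →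
    ∀ W : Submodule ℝ (Fin (L + 1) → ℝ), Module.finrank ℝ W ≤ k → ∀ y : Fin r → Fin (L + 1) → ℝ,
    cn N {n | ∃ (b : Fin (L + 1) → ℝ) (c : Fin r → Fin (L + 1) → ℝ), b ∈ W ∧ (∀ i, c i ∈ W) ∧ ρ * L ≤
      (({j : Fin (L + 1) | b j ≠ 0 ∧ |b j * ord (n + j) - ∑ i, c i j * y i j| ≤
        |b j| * (δ * Real.sqrt (Real.log L) / Real.log (ord n))} :
          Set (Fin (L + 1))).ncard : ℝ)} ≤ η * N := by
  classical
  obtain ⟨δ, hδ, h⟩ := alg_sub 1 hρ
  refine ⟨δ, hδ, fun k r η hη => ?_⟩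
  obtain ⟨L0, hL0⟩ := h ((r + 1) * k) η hη
  refine ⟨L0, fun L hL N hN hLN W hW y => ?_⟩
  -- the space of all values
  set Φ : (Fin (r + 1) → W) →ₗ[ℝ] (Fin (L + 1) → ℝ) :=
    { toFun := fun c j => (c 0 : Fin (L + 1) → ℝ) j + ∑ i : Fin r, (c i.succ : Fin (L + 1) → ℝ) j * y i j
      map_add' := by
        intro c c'
        funext j
        simp only [Pi.add_apply, Submodule.coe_add, add_mul, Finset.sum_add_distrib]
        ring
      map_smul' := by
        intro s c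
        funext j
        simp only [Pi.smul_apply, Submodule.coe_smul, smul_eq_mul, RingHom.id_apply, mul_add,
          Finset.mul_sum, mul_assoc] } with hΦ
  have hdim : Module.finrank ℝ (LinearMap.range Φ) ≤ (r + 1) * k := by
    refine (LinearMap.finrank_range_le Φ).trans ?_
    rw [Module.finrank_pi_fintype, Finset.sum_const, Finset.card_univ, Fintype.card_fin, smul_eq_mul]
    exact Nat.mul_le_mul_left _ hW
  refine le_trans (cn_mono fun n _ _ hn => ?_) (hL0 L hL N hN hLN (LinearMap.range Φ) hdim)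
  obtain ⟨b, c, hb, hc, hbc⟩ := hn
  obtain ⟨u, hu⟩ : ∃ u : Fin (L + 1) → ℝ, u = fun j => - ∑ i, c i j * y i j := ⟨_, rfl⟩
  have hbV : b ∈ LinearMap.range Φ := by
    refine ⟨Fin.cons ⟨b, hb⟩ (fun _ => 0), ?_⟩
    funext j
    simp [hΦ]
  have huV : u ∈ LinearMap.range Φ := by
    refine ⟨Fin.cons 0 (fun i => ⟨-(c i), W.neg_mem (hc i)⟩), ?_⟩
    funext j
    simp [hΦ, hu]
  refine ⟨![u, b], ?_, hbc.trans ?_⟩
  · intro q
    fin_cases q
    · exact huV
    · exact hbV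
  · have h1 := Set.ncard_le_ncard (s := {j : Fin (L + 1) | b j ≠ 0 ∧
        |b j * ord (n + j) - ∑ i, c i j * y i j| ≤
        |b j| * (δ * Real.sqrt (Real.log L) / Real.log (ord n))})
      (t := {j : Fin (L + 1) | (∃ q, (![u, b] : Fin 2 → Fin (L + 1) → ℝ) q j ≠ 0) ∧
        ∃ x : ℝ, ∑ q, (![u, b] : Fin 2 → Fin (L + 1) → ℝ) q j * x ^ (q : ℕ) = 0 ∧
        |ord (n + j) - x| ≤ δ * Real.sqrt (Real.log L) / Real.log (ord n)}) ?_ (Set.toFinite _)
    · exact_mod_cast h1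
    · rintro j ⟨h1, h2⟩
      refine ⟨⟨1, by simpa using h1⟩, (∑ i, c i j * y i j) / b j, ?_, ?_⟩
      · rw [Fin.sum_univ_two]
        simp only [Matrix.cons_val_zero, Matrix.cons_val_one, Fin.val_zero, Fin.val_one, pow_zero,
          pow_one, mul_one]
        rw [hu]
        field_simp
        ring
      · have h3 : |b j| * |ord (n + j) - (∑ i, c i j * y i j) / b j| =
            |b j * ord (n + j) - ∑ i, c i j * y i j| := by
          rw [← abs_mul]
          congr 1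
          field_simp
        have h4 : 0 < |b j| := abs_pos.2 h1
        rw [← h3] at h2
        exact le_of_mul_le_mul_left h2 h4

end Pool.Agent.R846.VE
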